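import Pool.Agent.U909.CH.Tr
import Pool.Agent.U909.PW.Pnt

/-!
# Logarithmic means: equivalence, shifts, single factors
-/

set_option autoImplicit false

open Finset Filter Topology

namespace Pool.Agent.U909.CH

open Pool.Agent.U909.PW
open Pool.Agent.Y854.PS (wt wt_nonneg wt_anti ms xs xs_nonneg ms_mono xs_mono)
open Pool.Agent.Y854.ST (sum_wt_up sum_wt_low wsum)

/-- smallness compared with a weight -/
lemma eps_iff (s w : ℕ → ℝ) (hw : ∀ᶠ N in atTop, 0 < w N) :
    Tendsto (fun N => s N / w N) atTop (𝓝 0) ↔ ∀ ε : ℝ, 0 < ε → ∃ N0 : ℕ, ∀ N : ℕ, N0 ≤ N → |s N| ≤ ε * w N := by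
  rw [Metric.tendsto_atTop]
  obtain ⟨M, hM⟩ := hw.exists_forall_of_atTop
  constructor
  · intro h ε hε
    obtain ⟨N0, h0⟩ := h ε hε
    refine ⟨max N0 M, fun N hN => ?_⟩
    have h1 := h0 N ((le_max_left _ _).trans hN)
    have h2 := hM N ((le_max_right _ _).trans hN)
    rw [Real.dist_eq, sub_zero, abs_div, abs_of_pos h2, div_lt_iff₀ h2] at h1
    exact h1.le
  · intro h ε hε
    obtain ⟨N0, h0⟩ := h (ε / 2) (by positivity)
    refine ⟨max N0 M, fun N hN => ?_⟩
    have h1 := h0 N ((le_max_left _ _).trans hN)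
    have h2 := hM N ((le_max_right _ _).trans hN)
    rw [Real.dist_eq, sub_zero, abs_div, abs_of_pos h2, div_lt_iff₀ h2]
    have : ε / 2 * w N < ε * w N := by
      apply mul_lt_mul_of_pos_right _ h2
      linarith
    linarith

lemma log_tendsto : Tendsto (fun N : ℕ => Real.log N) atTop atTop :=
  Real.tendsto_log_atTop.comp tendsto_natCast_atTop_atTop

/-- **Logarithmic means along the sequence and of all integers.** -/
theorem lg {α c : ℝ} (hα : 0 < α) (hc : 1 < c) (g : ℕ → ℝ) (hg : ∀ t, |g t| ≤ 1) (hL : Law α c g) :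
    (∀ ε : ℝ, 0 < ε → ∃ N0 : ℕ, ∀ N : ℕ, N0 ≤ N → |∑ n ∈ Ioc 0 N, (1 / (n : ℝ)) * g (ms α c n)| ≤ ε * Real.log N) ↔
    (∀ ε : ℝ, 0 < ε → ∃ N0 : ℕ, ∀ N : ℕ, N0 ≤ N → |∑ t ∈ Ioc 0 N, (1 / (t : ℝ)) * g t| ≤ ε * Real.log N) := by
  have hc0 : 0 < c := by linarith
  obtain ⟨B, hB⟩ := log_avg hα hc g hg hL
  have hB0 : 0 ≤ B := (abs_nonneg _).trans (hB 0)
  set a := α ^ (-(1 / c)) with ha
  have ha0 : 0 < a := Real.rpow_pos_of_pos hα _
  constructor
  · intro h ε hε
    obtain ⟨N1, h1⟩ := h (ε / (2 * c)) (by positivity)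
    obtain ⟨N2, h2⟩ := (ms_ge hα hc).exists_forall_of_atTop
    set K := c * B + c * (1 + a) with hK
    obtain ⟨N3, h3⟩ := (log_tendsto.eventually (eventually_ge_atTop (2 * K / ε))).exists_forall_of_atTop
    set M := max (max N1 N2) 1 with hM
    refine ⟨max (ms α c M) N3, fun Y hY => ?_⟩
    obtain ⟨N, hN, hY1, hY2⟩ := between hα hc M Y ((le_max_left _ _).trans hY)
    have hN1 : N1 ≤ N := ((le_max_left _ _).trans (le_max_left _ _)).trans hN
    have hN2 : N2 ≤ N := ((le_max_right _ _).trans (le_max_left _ _)).trans hN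
    have hN3 : 1 ≤ N := (le_max_right _ _).trans hN
    have hNr : (1 : ℝ) ≤ N := by exact_mod_cast hN3
    have b1 := h1 N hN1
    have b2 := hB N
    have b3 := h2 N hN2
    have hNY : (N : ℝ) ≤ Y := by exact_mod_cast b3.trans hY1
    have b4 : Real.log N ≤ Real.log Y := Real.log_le_log (by linarith) hNY
    have b5 := h3 Y ((le_max_right _ _).trans hY)
    rw [div_le_iff₀ hε] at b5
    have b6 : |∑ t ∈ Ioc (ms α c N) Y, (1 / (t : ℝ)) * g t| ≤ c * (1 + a) := by
      refine (Finset.abs_sum_le_sum_abs _ _).trans ?_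
      have d1 : ∑ t ∈ Ioc (ms α c N) Y, |(1 / (t : ℝ)) * g t| ≤ ∑ t ∈ Ioc (ms α c N) (ms α c (N + 1)), c * (a * wt c t) := by
        refine (Finset.sum_le_sum fun t ht => ?_).trans
          (Finset.sum_le_sum_of_subset_of_nonneg (Finset.Ioc_subset_Ioc_right hY2)
            fun t _ _ => mul_nonneg hc0.le (mul_nonneg ha0.le (wt_nonneg hc t)))
        rw [mem_Ioc] at ht
        have ht0 : (0 : ℝ) < t := by exact_mod_cast (by omega : 0 < t)
        have h4 := (block_term hα hc (n := N + 1) (t := t) (by omega) (by rw [Nat.add_sub_cancel]; exact ht.1) (ht.2.trans hY2)).2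
        push_cast at h4
        rw [abs_mul, abs_of_nonneg (show (0 : ℝ) ≤ 1 / t by positivity)]
        have h5 : 1 / (t : ℝ) * |g t| ≤ 1 / t := by
          have := mul_le_mul_of_nonneg_left (hg t) (show (0 : ℝ) ≤ 1 / t by positivity)
          linarith
        refine h5.trans ?_
        have h6 : 1 / (t : ℝ) ≤ c * (((N : ℝ) + 1 - 1) / (c * t)) := by
          have e : c * (((N : ℝ) + 1 - 1) / (c * t)) = N / t := by
            field_simp
            ring
          rw [e]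
          exact div_le_div_of_nonneg_right hNr ht0.le
        exact h6.trans (mul_le_mul_of_nonneg_left h4 hc0.le)
      refine d1.trans ?_
      rw [← Finset.mul_sum, ← Finset.mul_sum]
      exact mul_le_mul_of_nonneg_left (block_wt hα hc N) hc0.le
    rw [Ioc_split _ hY1]
    have b7 : |(1 / c) * ∑ t ∈ Ioc 0 (ms α c N), (1 / (t : ℝ)) * g t| ≤ ε / (2 * c) * Real.log N + B := by
      rw [abs_le] at b1 b2 ⊢
      constructor <;> linarith [b1.1, b1.2, b2.1, b2.2]
    rw [abs_mul, abs_of_pos (show 0 < 1 / c by positivity)] at b7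
    have b8 : |∑ t ∈ Ioc 0 (ms α c N), (1 / (t : ℝ)) * g t| ≤ ε / 2 * Real.log N + c * B := by
      have := mul_le_mul_of_nonneg_left b7 hc0.le
      have e1 : c * (1 / c * |∑ t ∈ Ioc 0 (ms α c N), (1 / (t : ℝ)) * g t|) = |∑ t ∈ Ioc 0 (ms α c N), (1 / (t : ℝ)) * g t| := by
        field_simp
      have e2 : c * (ε / (2 * c) * Real.log N + B) = ε / 2 * Real.log N + c * B := by
        field_simp
      rw [e1, e2] at this
      exact this
    refine (abs_add_le _ _).trans ?_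
    have b9 : ε / 2 * Real.log N ≤ ε / 2 * Real.log Y := mul_le_mul_of_nonneg_left b4 (by positivity)
    linarith
  · intro h ε hε
    obtain ⟨Y0, h1⟩ := h (ε / 4) (by positivity)
    obtain ⟨N2, h2⟩ := (ms_ge hα hc).exists_forall_of_atTop
    obtain ⟨N3, h3⟩ := (log_tendsto.eventually (eventually_ge_atTop (max (2 * B / ε) |Real.log α / c|))).exists_forall_of_atTop
    refine ⟨max (max Y0 N2) (max N3 1), fun N hN => ?_⟩
    have hN1 : Y0 ≤ N := ((le_max_left _ _).trans (le_max_left _ _)).trans hN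
    have hN2 : N2 ≤ N := ((le_max_right _ _).trans (le_max_left _ _)).trans hN
    have hN3 : N3 ≤ N := ((le_max_left _ _).trans (le_max_right _ _)).trans hN
    have hN4 : 1 ≤ N := ((le_max_right _ _).trans (le_max_right _ _)).trans hN
    have hNr : (0 : ℝ) < N := by exact_mod_cast (by omega : 0 < N)
    have b0 := h2 N hN2
    have b1 := h1 (ms α c N) (hN1.trans b0)
    have b2 := hB N
    have b3 := h3 N hN3
    have b4 : 2 * B / ε ≤ Real.log N := (le_max_left _ _).trans b3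
    have b5 : |Real.log α / c| ≤ Real.log N := (le_max_right _ _).trans b3
    rw [div_le_iff₀ hε] at b4
    have b6 : Real.log (ms α c N : ℕ) ≤ 2 * c * Real.log N := by
      have hms0 : (0 : ℝ) < (ms α c N : ℕ) := by exact_mod_cast (by omega : 0 < ms α c N)
      have h4 : Real.log (ms α c N : ℕ) ≤ Real.log (xs α c N) :=
        Real.log_le_log hms0 (Nat.floor_le (xs_nonneg hα N))
      have h5 : Real.log (xs α c N) = Real.log α + c * Real.log N := by
        unfold xs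
        rw [Real.log_mul hα.ne' (Real.rpow_pos_of_pos hNr _).ne', Real.log_rpow hNr]
      have h6 : Real.log α ≤ c * Real.log N := by
        have h7 := (le_abs_self _).trans b5
        rw [div_le_iff₀ hc0] at h7
        linarith
      linarith
    have b7 : |(1 / c) * ∑ t ∈ Ioc 0 (ms α c N), (1 / (t : ℝ)) * g t| ≤ ε / 2 * Real.log N := by
      rw [abs_mul, abs_of_pos (show 0 < 1 / c by positivity)]
      have h4 := mul_le_mul_of_nonneg_left b1 (show 0 ≤ 1 / c by positivity)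
      refine h4.trans ?_
      have h5 := mul_le_mul_of_nonneg_left b6 (show 0 ≤ 1 / c * (ε / 4) by positivity)
      have e : 1 / c * (ε / 4) * (2 * c * Real.log N) = ε / 2 * Real.log N := by
        field_simp
        ring
      rw [e] at h5
      linarith
    rw [abs_le] at b2 b7 ⊢
    constructor <;> linarith [b2.1, b2.2, b7.1, b7.2]

/-- Cesàro means and logarithmic means -/
theorem ces_log (u : ℕ → ℝ) (hu : ∀ t, |u t| ≤ 1)
    (h : ∀ ε : ℝ, 0 < ε → ∃ N0 : ℕ, ∀ N : ℕ, N0 ≤ N → |∑ n ∈ Ioc 0 N, u n| ≤ ε * N) :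
    ∀ ε : ℝ, 0 < ε → ∃ N0 : ℕ, ∀ N : ℕ, N0 ≤ N → |∑ n ∈ Ioc 0 N, (1 / (n : ℝ)) * u n| ≤ ε * Real.log N := by
  intro ε hε
  obtain ⟨N1, h1⟩ := h (ε / 4) (by positivity)
  have h2 : ∀ t : ℕ, 1 ≤ t → |∑ s ∈ Ioc 0 t, u s| ≤ ∑ s ∈ Ioc 0 t, (ε / 4 + if s = 1 then (N1 : ℝ) else 0) := by
    intro t ht
    have e1 : ∑ s ∈ Ioc 0 t, (ε / 4 + if s = 1 then (N1 : ℝ) else 0) = ε / 4 * t + N1 := by
      rw [Finset.sum_add_distrib, Finset.sum_const, Nat.card_Ioc, Nat.sub_zero, nsmul_eq_mul,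
        Finset.sum_ite_eq' (Ioc 0 t) 1, if_pos (mem_Ioc.2 ⟨one_pos, ht⟩)]
      ring
    rw [e1]
    rcases le_or_gt N1 t with h3 | h3
    · have := h1 t h3
      have : (0 : ℝ) ≤ N1 := Nat.cast_nonneg _
      linarith
    · have h4 : |∑ s ∈ Ioc 0 t, u s| ≤ t := by
        refine (Finset.abs_sum_le_sum_abs _ _).trans ?_
        calc ∑ n ∈ Ioc 0 t, |u n| ≤ ∑ _n ∈ Ioc 0 t, (1 : ℝ) := Finset.sum_le_sum fun n _ => hu _
          _ = t := by rw [Finset.sum_const, Nat.card_Ioc, nsmul_eq_mul, mul_one, Nat.sub_zero]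
      have h5 : (t : ℝ) ≤ N1 := by exact_mod_cast h3.le
      have h6 : 0 ≤ ε / 4 * t := by positivity
      linarith
  obtain ⟨N2, h3⟩ := (log_tendsto.eventually (eventually_ge_atTop (max 1 (2 * N1 / ε)))).exists_forall_of_atTop
  refine ⟨max N2 1, fun N hN => ?_⟩
  have b3 := h3 N ((le_max_left _ _).trans hN)
  have hN1 : 1 ≤ N := (le_max_right _ _).trans hN
  have b4 : 1 ≤ Real.log N := (le_max_left _ _).trans b3
  have b5 : 2 * N1 / ε ≤ Real.log N := (le_max_right _ _).trans b3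
  rw [div_le_iff₀ hε] at b5
  have b1 := dom (fun t : ℕ => 1 / (t : ℝ)) u _ (fun t _ => by positivity) (fun t ht => by
    have ht0 : (0 : ℝ) < t := by exact_mod_cast (by omega : 0 < t)
    push_cast
    exact one_div_le_one_div_of_le ht0 (by linarith)) N (fun t ht _ => h2 t ht)
  refine b1.trans ?_
  simp only [mul_add, Finset.sum_add_distrib, mul_ite, mul_zero]
  rw [Finset.sum_ite_eq' (Ioc 0 N) 1, if_pos (mem_Ioc.2 ⟨one_pos, hN1⟩)]
  have e2 : ∑ t ∈ Ioc 0 N, 1 / (t : ℝ) * (ε / 4) = ε / 4 * ∑ t ∈ Ioc 0 N, 1 / (t : ℝ) := by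
    rw [Finset.mul_sum]
    exact Finset.sum_congr rfl fun t _ => mul_comm _ _
  rw [e2]
  have b6 : ∑ t ∈ Ioc 0 N, 1 / (t : ℝ) ≤ 1 + Real.log N := by
    have h5 := harmonic_le_one_add_log N
    have e3 : ∑ t ∈ Ioc 0 N, 1 / (t : ℝ) = ((harmonic N : ℚ) : ℝ) := by
      rw [harmonic_eq_sum_Icc]
      push_cast
      rw [Pool.Agent.Y854.ST.Ioc_zero]
      exact Finset.sum_congr rfl fun t _ => one_div _
    rw [e3]
    exact h5
  have b7 := mul_le_mul_of_nonneg_left b6 (show 0 ≤ ε / 4 by positivity)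
  have b8 : (1 : ℝ) / ((1 : ℕ) : ℝ) * (N1 : ℝ) = N1 := by simp
  rw [b8]
  nlinarith

/-- logarithmic sums of a shifted function -/
theorem log_shift (f : ℤ → ℝ) (hf : ∀ x, |f x| ≤ Real.log (x.natAbs + 1)) (k : ℤ) :
    ∃ B : ℝ, ∀ N : ℕ, |∑ t ∈ Ioc 0 N, (1 / (t : ℝ)) * f ((t : ℤ) + k) - ∑ t ∈ Ioc 0 N, (1 / (t : ℝ)) * f t| ≤ B := by
  obtain ⟨C, hC, h1⟩ := log_le_pow k.natAbs (1 / 2) (by norm_num) (by norm_num)
  obtain ⟨B, -, h2⟩ := log_bdd (fun t => f ((t : ℤ) + k) - f t) (1 / 2) (2 * k.natAbs * C) (by norm_num) (by positivity)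
    (fun N hN => by
      rw [Finset.sum_sub_distrib]
      refine (shift f hf k N).trans ?_
      have h3 := h1 N hN
      have h4 := mul_le_mul_of_nonneg_left h3 (show 0 ≤ 2 * (k.natAbs : ℝ) by positivity)
      have e : (N : ℝ) ^ (1 - 1 / 2 : ℝ) = (N : ℝ) ^ (1 / 2 : ℝ) := by norm_num
      rw [e]
      linarith)
  refine ⟨B, fun N => ?_⟩
  rw [← Finset.sum_sub_distrib]
  refine le_trans (le_of_eq ?_) (h2 N)
  congr 1
  exact Finset.sum_congr rfl fun t _ => by ring

end Pool.Agent.U909.CH
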