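import Pool.Agent.U909.CH.Lg
import Pool.Agent.Y326.Chw2
import Pool.Agent.N791.C2.Ap

/-!
# The functions of Liouville and Moebius along the sequence `⌊α n ^ c⌋`
-/

set_option autoImplicit false

open Finset Filter Topology

namespace Pool.Agent.U909.CH

open Pool.Agent.U909.PW
open Pool.Agent.Y854.PS (wt wt_nonneg wt_anti ms xs xs_nonneg ms_mono xs_mono)
open Pool.Agent.Y854.ST (sum_wt_up sum_wt_low wsum)

/-- the Liouville function on the integers -/
noncomputable def liou (m : ℤ) : ℝ := if m = 0 then 0 else (-1) ^ ArithmeticFunction.cardFactors m.natAbs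

/-- the Moebius function on the integers -/
noncomputable def moeb (m : ℤ) : ℝ := ((ArithmeticFunction.moebius m.natAbs : ℤ) : ℝ)

lemma liou_zero : liou 0 = 0 := by simp [liou]

lemma moeb_zero : moeb 0 = 0 := by simp [moeb]

lemma liou_abs (m : ℤ) : |liou m| ≤ 1 := by
  unfold liou
  split_ifs
  · simp
  · rw [abs_pow, abs_neg, abs_one, one_pow]

lemma moeb_abs (m : ℤ) : |moeb m| ≤ 1 := by
  unfold moeb
  have := @ArithmeticFunction.abs_moebius_le_one m.natAbs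
  exact_mod_cast this

lemma liou_pos {n : ℕ} (hn : 1 ≤ n) : liou n = (-1) ^ ArithmeticFunction.cardFactors n := by
  unfold liou
  rw [if_neg (by exact_mod_cast (by omega : n ≠ 0)), Int.natAbs_natCast]

lemma moeb_pos (n : ℕ) : moeb n = ((ArithmeticFunction.moebius n : ℤ) : ℝ) := by
  unfold moeb
  rw [Int.natAbs_natCast]

/-- the class of functions considered: bounded by `1`, zero at `0`, small in progressions, uncorrelated -/
structure Good (f : ℤ → ℝ) : Prop where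
  zero : f 0 = 0
  bd : ∀ x, |f x| ≤ 1
  null : ∃ f0 : ℕ → ℝ, (∀ n : ℕ, 1 ≤ n → f n = f0 n) ∧ Pool.Agent.N791.C2.Null f0
  two : ∀ h : ℕ, 1 ≤ h → Tendsto (fun N : ℕ => (1 / Real.log (N : ℝ)) * ∑ n ∈ Icc 1 N, (1 / (n : ℝ)) * (f n * f (n + h))) atTop (𝓝 0)

theorem good_liou : Good liou := by
  refine ⟨liou_zero, liou_abs, ⟨Pool.Agent.N791.C2.lam, fun n hn => liou_pos hn, Pool.Agent.N791.C2.null_lam⟩, fun h hh => ?_⟩
  refine (Pool.Agent.Y326.tao_lam h hh).congr fun N => ?_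
  congr 1
  refine Finset.sum_congr rfl fun n hn => ?_
  rw [mem_Icc] at hn
  congr 1
  have e : ((n : ℤ) + h) = ((n + h : ℕ) : ℤ) := by push_cast; ring
  rw [e, liou_pos hn.1, liou_pos (by omega)]
  unfold Pool.Agent.Y326.ps Pool.Agent.H376R2.MR.lam
  push_cast
  rfl

theorem good_moeb : Good moeb := by
  refine ⟨moeb_zero, moeb_abs, ⟨Pool.Agent.N791.C2.mob, fun n _ => moeb_pos n, Pool.Agent.N791.C2.null_mob⟩, fun h hh => ?_⟩
  refine (Pool.Agent.Y326.tao_mu h hh).congr fun N => ?_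
  congr 1

lemma half_log (f : ℤ → ℝ) (h0 : f 0 = 0) (hb : ∀ x, |f x| ≤ 1) (x : ℤ) : |(1 / 2) * f x| ≤ Real.log (x.natAbs + 1) := by
  rcases eq_or_ne x 0 with rfl | hx
  · rw [h0]; simp
  · have h1 : (1 : ℝ) ≤ x.natAbs := by
      have : 1 ≤ x.natAbs := by omega
      exact_mod_cast this
    have h2 : Real.log 2 ≤ Real.log (x.natAbs + 1) := Real.log_le_log (by norm_num) (by linarith)
    have h3 := Real.log_two_gt_d9
    have h4 := hb x
    rw [abs_mul, abs_of_pos (by norm_num : (0 : ℝ) < 1 / 2)]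
    linarith

/-- single factors -/
theorem sw_one (f : ℤ → ℝ) (hf : Good f) (k : ℤ) (q : ℕ) (hq : 1 ≤ q) (r : ℤ) :
    SW (fun t : ℕ => if (t : ℤ) ≡ r [ZMOD q] then f ((t : ℤ) + k) else 0) := by
  obtain ⟨f0, hf0, hnull⟩ := hf.null
  set F : ℤ → ℝ := fun x => if x - k ≡ r [ZMOD q] then f x else 0 with hF
  have hF0 : F 0 = 0 := by simp only [hF]; split_ifs <;> simp [hf.zero]
  have hFb : ∀ x, |F x| ≤ 1 := by
    intro x
    simp only [hF]
    split_ifs
    · exact hf.bd x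
    · simp
  have e0 : ∀ t : ℕ, (if (t : ℤ) ≡ r [ZMOD q] then f ((t : ℤ) + k) else 0) = F ((t : ℤ) + k) := by
    intro t
    simp only [hF, add_sub_cancel_right]
  have hq0 : (q : ℤ) ≠ 0 := by exact_mod_cast (by omega : q ≠ 0)
  set r' : ℕ := ((r + k) % q).toNat with hr'
  have hr0 : (r' : ℤ) = (r + k) % q := by
    rw [hr', Int.toNat_of_nonneg (Int.emod_nonneg _ hq0)]
  have hrr : (r' : ℤ) ≡ r + k [ZMOD q] := by
    rw [hr0]
    exact Int.mod_modEq (r + k) q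
  have e1 : ∀ Y : ℕ, ∑ t ∈ Ioc 0 Y, F t = ∑ n ∈ (Icc 1 Y).filter (fun n => n ≡ r' [MOD q]), f0 n := by
    intro Y
    rw [Pool.Agent.Y854.ST.Ioc_zero, Finset.sum_filter]
    refine Finset.sum_congr rfl fun n hn => ?_
    rw [mem_Icc] at hn
    simp only [hF]
    have h1 : (n : ℤ) - k ≡ r [ZMOD q] ↔ n ≡ r' [MOD q] := by
      rw [← Int.natCast_modEq_iff]
      constructor
      · intro h
        have h2 := h.add_right k
        rw [sub_add_cancel] at h2
        exact h2.trans hrr.symm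
      · intro h
        have h2 := (h.trans hrr).sub_right k
        rwa [add_sub_cancel_right] at h2
    by_cases h2 : n ≡ r' [MOD q]
    · rw [if_pos (h1.2 h2), if_pos h2, hf0 n hn.1]
    · rw [if_neg (fun h => h2 (h1.1 h)), if_neg h2]
  have hsh : ∀ Y : ℕ, |∑ t ∈ Ioc 0 Y, F ((t : ℤ) + k) - ∑ t ∈ Ioc 0 Y, F t| ≤ 4 * k.natAbs * Real.log (Y + k.natAbs + 2) := by
    intro Y
    have h1 := shift (fun x => (1 / 2) * F x) (half_log F hF0 hFb) k Y
    rw [← Finset.mul_sum, ← Finset.mul_sum, ← mul_sub, abs_mul, abs_of_pos (by norm_num : (0 : ℝ) < 1 / 2)] at h1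
    linarith
  set K : ℕ := k.natAbs with hK
  constructor
  · refine ⟨1, fun t => ?_⟩
    refine (Finset.abs_sum_le_sum_abs _ _).trans ?_
    calc ∑ s ∈ Ioc 0 t, |if (s : ℤ) ≡ r [ZMOD q] then f ((s : ℤ) + k) else 0| ≤ ∑ _s ∈ Ioc 0 t, (1 : ℝ) := by
          refine Finset.sum_le_sum fun s _ => ?_
          rw [e0]
          exact hFb _
      _ = 1 * t := by rw [Finset.sum_const, Nat.card_Ioc, nsmul_eq_mul, mul_one, Nat.sub_zero, one_mul]
  · intro U
    obtain ⟨N1, h1⟩ := hnull (U + 1)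
    obtain ⟨N2, h2⟩ := (((log_tendsto.eventually (eventually_ge_atTop 3)).and
      (log_pow_le one_pos (U + 1) (16 * K))).and (eventually_ge_atTop (K + 3))).exists_forall_of_atTop
    refine ⟨max N1 N2, fun t ht => ?_⟩
    have htN1 : N1 ≤ t := (le_max_left _ _).trans ht
    obtain ⟨⟨b1, b2⟩, b4⟩ := h2 t ((le_max_right _ _).trans ht)
    have ht1 : 1 ≤ t := by omega
    have ht0 : (0 : ℝ) < t := by exact_mod_cast (by omega : 0 < t)
    set L := Real.log t with hL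
    have hL0 : 0 < L := by linarith
    have c1 := h1 t htN1 q r' hq
    rw [← e1] at c1
    have c3 := hsh t
    have hLU : 0 < L ^ U := by positivity
    have f1 : 4 * K * Real.log (t + K + 2) ≤ (1 / 2) * (t / L ^ U) := by
      have h3 : Real.log ((t : ℝ) + K + 2) ≤ 2 * L := by
        rw [hL]
        have h4 : 2 * Real.log (t : ℝ) = Real.log ((t : ℝ) ^ 2) := by rw [Real.log_pow]; norm_num
        rw [h4]
        apply Real.log_le_log (by positivity)
        have h5 : (K : ℝ) + 3 ≤ t := by exact_mod_cast b4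
        have : (0 : ℝ) ≤ K := Nat.cast_nonneg _
        nlinarith
      rw [← mul_div_assoc, le_div_iff₀ hLU]
      rw [Real.rpow_one, pow_succ] at b2
      have h4 := mul_le_mul_of_nonneg_left h3 (show 0 ≤ 4 * (K : ℝ) * L ^ U by positivity)
      linarith
    have f3 : (t : ℝ) / L ^ (U + 1) ≤ (1 / 3) * (t / L ^ U) := by
      rw [← mul_div_assoc, div_le_div_iff₀ (by positivity) hLU, pow_succ]
      have h5 : 0 ≤ (t : ℝ) * L ^ U := by positivity
      nlinarith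
    have f4 : 0 ≤ (t : ℝ) / L ^ U := by positivity
    simp only [e0]
    rw [abs_le] at c1 c3 ⊢
    constructor <;> linarith [c1.1, c1.2, c3.1, c3.2]

/-- smallness of the partial sums -/
lemma sw_eps (u : ℕ → ℝ) (hu : SW u) : ∀ ε : ℝ, 0 < ε → ∃ N0 : ℕ, ∀ N : ℕ, N0 ≤ N → |∑ n ∈ Ioc 0 N, u n| ≤ ε * N := by
  intro ε hε
  obtain ⟨N1, h1⟩ := hu.2 1
  obtain ⟨N2, h2⟩ := (log_tendsto.eventually (eventually_ge_atTop (1 / ε))).exists_forall_of_atTop
  refine ⟨max N1 N2, fun N hN => ?_⟩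
  refine (h1 N ((le_max_left _ _).trans hN)).trans ?_
  have h3 := h2 N ((le_max_right _ _).trans hN)
  have h4 : 0 < Real.log N := lt_of_lt_of_le (by positivity) h3
  rw [pow_one, div_le_iff₀ h4]
  rw [div_le_iff₀ hε] at h3
  have h5 : (0 : ℝ) ≤ N := Nat.cast_nonneg _
  have h6 := mul_le_mul_of_nonneg_right h3 h5
  linarith

/-- two factors, logarithmic means over all integers -/
theorem two_nat (f : ℤ → ℝ) (hf : Good f) (k k' : ℤ) (hk : k < k') :
    ∀ ε : ℝ, 0 < ε → ∃ N0 : ℕ, ∀ N : ℕ, N0 ≤ N →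
      |∑ t ∈ Ioc 0 N, (1 / (t : ℝ)) * (f ((t : ℤ) + k) * f ((t : ℤ) + k'))| ≤ ε * Real.log N := by
  set h : ℕ := (k' - k).toNat with hh
  have hh1 : 1 ≤ h := by omega
  have hhe : (h : ℤ) = k' - k := by omega
  set F : ℤ → ℝ := fun x => f x * f (x + h) with hF
  have hF0 : F 0 = 0 := by simp [hF, hf.zero]
  have hFb : ∀ x, |F x| ≤ 1 := by
    intro x
    simp only [hF]
    rw [abs_mul]
    exact mul_le_one₀ (hf.bd _) (abs_nonneg _) (hf.bd _)
  obtain ⟨B, hB⟩ := log_shift (fun x => (1 / 2) * F x) (half_log F hF0 hFb) k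
  have h1 := hf.two h hh1
  have h2 : Tendsto (fun N : ℕ => (∑ n ∈ Icc 1 N, (1 / (n : ℝ)) * (f n * f (n + h))) / Real.log (N : ℝ)) atTop (𝓝 0) := by
    refine h1.congr fun N => ?_
    rw [one_div, mul_comm, div_eq_mul_inv]
  rw [eps_iff _ _ (log_tendsto.eventually (eventually_gt_atTop 0))] at h2
  intro ε hε
  obtain ⟨N1, h3⟩ := h2 (ε / 2) (by positivity)
  obtain ⟨N2, h4⟩ := (log_tendsto.eventually (eventually_ge_atTop (4 * B / ε))).exists_forall_of_atTop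
  refine ⟨max N1 N2, fun N hN => ?_⟩
  have b1 := h3 N ((le_max_left _ _).trans hN)
  have b2 := h4 N ((le_max_right _ _).trans hN)
  have b3 := hB N
  rw [div_le_iff₀ hε] at b2
  have e1 : ∑ t ∈ Ioc 0 N, (1 / (t : ℝ)) * (1 / 2 * F ((t : ℤ) + k)) =
      1 / 2 * ∑ t ∈ Ioc 0 N, (1 / (t : ℝ)) * (f ((t : ℤ) + k) * f ((t : ℤ) + k')) := by
    rw [Finset.mul_sum]
    refine Finset.sum_congr rfl fun t _ => ?_
    simp only [hF]
    have : (t : ℤ) + k + h = (t : ℤ) + k' := by omega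
    rw [this]
    ring
  have e2 : ∑ t ∈ Ioc 0 N, (1 / (t : ℝ)) * (1 / 2 * F (t : ℤ)) =
      1 / 2 * ∑ n ∈ Icc 1 N, (1 / (n : ℝ)) * (f n * f (n + h)) := by
    rw [Finset.mul_sum, Pool.Agent.Y854.ST.Ioc_zero]
    refine Finset.sum_congr rfl fun t _ => ?_
    simp only [hF]
    ring
  rw [e1, e2, ← mul_sub, abs_mul, abs_of_pos (by norm_num : (0 : ℝ) < 1 / 2)] at b3
  rw [abs_le] at b1
  have b4 := abs_le.1 (show |∑ t ∈ Ioc 0 N, (1 / (t : ℝ)) * (f ((t : ℤ) + k) * f ((t : ℤ) + k')) -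
    ∑ n ∈ Icc 1 N, (1 / (n : ℝ)) * (f n * f (n + h))| ≤ 2 * B by linarith)
  rw [abs_le]
  constructor <;> linarith [b1.1, b1.2, b4.1, b4.2]

/-- the law for the constant function `1` added -/
lemma law_one {α c : ℝ} (hα : 0 < α) (hc : 1 < c) (g : ℕ → ℝ) (hg : ∀ t, |g t| ≤ 1) (hL : Law α c g) :
    Law α c (fun t => 1 + g t) := by
  obtain ⟨κ, hκ, hκ1, C, hC, hR⟩ := law_all hα hc g hg hL
  set a := α ^ (-(1 / c)) with ha
  have ha0 : 0 < a := Real.rpow_pos_of_pos hα _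
  have hlim : Tendsto (fun N : ℕ => (N : ℝ) ^ (κ / 2)) atTop atTop :=
    (tendsto_rpow_atTop (by positivity)).comp tendsto_natCast_atTop_atTop
  obtain ⟨N0, h0⟩ := ((hlim.eventually (eventually_ge_atTop (C + a))).and (eventually_ge_atTop 1)).exists_forall_of_atTop
  refine ⟨κ / 2, by positivity, by linarith, N0, fun N hN => ?_⟩
  obtain ⟨h1, h2⟩ := h0 N hN
  have hNr : (1 : ℝ) ≤ N := by exact_mod_cast h2
  have hN0 : (0 : ℝ) < N := by linarith
  have b1 := hR N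
  have b2 := wsum hα hc N
  rw [← ha] at b2
  have e1 : ∑ n ∈ Icc 1 N, (1 + g (ms α c n)) - a * ∑ t ∈ Ioc 0 (ms α c N), wt c t * (1 + g t) =
      (N - a * ∑ t ∈ Ioc 0 (ms α c N), wt c t) +
      (∑ n ∈ Icc 1 N, g (ms α c n) - a * ∑ t ∈ Ioc 0 (ms α c N), wt c t * g t) := by
    simp only [mul_add, mul_one, Finset.sum_add_distrib, Finset.sum_const, Nat.card_Icc, nsmul_eq_mul,
      Nat.add_sub_cancel]
    ring
  rw [e1]
  have b3 : |(N : ℝ) - a * ∑ t ∈ Ioc 0 (ms α c N), wt c t| ≤ a := by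
    rw [abs_le]; constructor <;> linarith [b2.1, b2.2]
  refine (abs_add_le _ _).trans ((add_le_add b3 b1).trans ?_)
  have b4 : (1 : ℝ) ≤ (N : ℝ) ^ (1 - κ) := Real.one_le_rpow hNr (by linarith)
  have b5 : (N : ℝ) ^ (1 - κ / 2) = (N : ℝ) ^ (κ / 2) * (N : ℝ) ^ (1 - κ) := by
    rw [← Real.rpow_add hN0]
    congr 1
    ring
  rw [b5]
  have b6 := mul_le_mul_of_nonneg_right h1 (show 0 ≤ (N : ℝ) ^ (1 - κ) by positivity)
  nlinarith

/-- **Power savings.** -/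
theorem pow_iff {α c : ℝ} (hα : 0 < α) (hc : 1 < c) (g : ℕ → ℝ) (hg : ∀ t, |g t| ≤ 1) (hL : Law α c g) :
    (∃ δ : ℝ, 0 < δ ∧ ∃ N0 : ℕ, ∀ N : ℕ, N0 ≤ N → |∑ n ∈ Ioc 0 N, g (ms α c n)| ≤ (N : ℝ) ^ (1 - δ)) ↔
    (∃ δ : ℝ, 0 < δ ∧ ∃ N0 : ℕ, ∀ N : ℕ, N0 ≤ N → |∑ t ∈ Ioc 0 N, g t| ≤ (N : ℝ) ^ (1 - δ)) := by
  have hL1 := law_one hα hc g hg hL
  have h0 : ∀ t, 0 ≤ 1 + g t := fun t => by
    have := (abs_le.1 (hg t)).1
    linarith
  have e1 : ∀ N : ℕ, ∑ n ∈ Icc 1 N, (1 + g (ms α c n)) - 1 * (N : ℝ) = ∑ n ∈ Ioc 0 N, g (ms α c n) := by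
    intro N
    rw [Finset.sum_add_distrib, Finset.sum_const, Nat.card_Icc, nsmul_eq_mul, Nat.add_sub_cancel,
      Pool.Agent.Y854.ST.Ioc_zero]
    ring
  have e2 : ∀ t : ℕ, ∑ s ∈ Ioc 0 t, ((1 + g s) - 1) = ∑ s ∈ Ioc 0 t, g s := fun t =>
    Finset.sum_congr rfl fun s _ => by ring
  have triv : ∀ t : ℕ, |∑ s ∈ Ioc 0 t, g s| ≤ t := by
    intro t
    refine (Finset.abs_sum_le_sum_abs _ _).trans ?_
    calc ∑ n ∈ Ioc 0 t, |g n| ≤ ∑ _n ∈ Ioc 0 t, (1 : ℝ) := Finset.sum_le_sum fun n _ => hg _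
      _ = t := by rw [Finset.sum_const, Nat.card_Ioc, nsmul_eq_mul, mul_one, Nat.sub_zero]
  constructor
  · rintro ⟨δ, hδ, N0, h⟩
    obtain ⟨δ', hδ', C, h1⟩ := seq_pow_rev hα hc (ρ := 1) zero_le_one (fun t => 1 + g t) h0 hL1
      ⟨δ, hδ, N0, fun N hN => by rw [e1]; exact h N hN⟩
    have hlim : Tendsto (fun N : ℕ => (N : ℝ) ^ (δ' / 2)) atTop atTop :=
      (tendsto_rpow_atTop (by positivity)).comp tendsto_natCast_atTop_atTop
    obtain ⟨N1, h2⟩ := ((hlim.eventually (eventually_ge_atTop C)).and (eventually_ge_atTop 1)).exists_forall_of_atTop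
    refine ⟨δ' / 2, by positivity, N1, fun N hN => ?_⟩
    obtain ⟨h3, h4⟩ := h2 N hN
    have hN0 : (0 : ℝ) < N := by exact_mod_cast (by omega : 0 < N)
    have h5 := h1 N h4
    rw [e2] at h5
    refine h5.trans ?_
    have b5 : (N : ℝ) ^ (1 - δ' / 2) = (N : ℝ) ^ (δ' / 2) * (N : ℝ) ^ (1 - δ') := by
      rw [← Real.rpow_add hN0]
      congr 1
      ring
    rw [b5]
    exact mul_le_mul_of_nonneg_right h3 (by positivity)
  · rintro ⟨δ, hδ, N0, h⟩
    set δ₁ := min δ (1 / 2) with hδ₁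
    have hδ1 : 0 < δ₁ := lt_min hδ (by norm_num)
    obtain ⟨δ', hδ', N1, h1⟩ := seq_pow hα hc (ρ := 1) (fun t => 1 + g t) hL1
      ⟨δ₁, hδ1, N0 + 1, fun t ht => by
        rw [e2]
        have htr : (1 : ℝ) ≤ t := by exact_mod_cast ht
        have b1 : (1 : ℝ) ≤ (t : ℝ) ^ (1 - δ₁) := Real.one_le_rpow htr (by linarith [min_le_right δ (1 / 2)])
        rcases le_or_gt N0 t with h2 | h2
        · refine (h t h2).trans ?_
          have b2 : (t : ℝ) ^ (1 - δ) ≤ (t : ℝ) ^ (1 - δ₁) :=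
            Real.rpow_le_rpow_of_exponent_le htr (by linarith [min_le_left δ (1 / 2)])
          have : (0 : ℝ) ≤ N0 := Nat.cast_nonneg _
          nlinarith
        · have b2 : (t : ℝ) ≤ N0 := by exact_mod_cast h2.le
          have b3 := triv t
          nlinarith⟩
    exact ⟨δ', hδ', N1, fun N hN => by rw [← e1]; exact h1 N hN⟩

end Pool.Agent.U909.CH
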