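import Pool.Agent.U909.CH.Lg

/-!
# Sign patterns of length two
-/

set_option autoImplicit false

open Finset Filter Topology

namespace Pool.Agent.U909.CH

lemma harm (N : ℕ) (hN : 1 ≤ N) : |∑ t ∈ Ioc 0 N, 1 / (t : ℝ) - Real.log N| ≤ 1 := by
  have e3 : ∑ t ∈ Ioc 0 N, 1 / (t : ℝ) = ((harmonic N : ℚ) : ℝ) := by
    rw [harmonic_eq_sum_Icc]
    push_cast
    rw [Pool.Agent.Y854.ST.Ioc_zero]
    exact Finset.sum_congr rfl fun t _ => one_div _
  have h1 := harmonic_le_one_add_log N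
  have h2 := log_add_one_le_harmonic N
  have h3 : Real.log N ≤ Real.log ((N + 1 : ℕ) : ℝ) := by
    have hN0 : (0 : ℝ) < N := by exact_mod_cast (by omega : 0 < N)
    apply Real.log_le_log hN0
    push_cast
    linarith
  rw [e3, abs_le]
  constructor <;> linarith

/-- **Sign patterns of two uncorrelated sequences of signs, logarithmic density.** -/
theorem signs (u v : ℕ → ℝ) (M : ℕ) (hu : ∀ n, M ≤ n → u n = 1 ∨ u n = -1) (hv : ∀ n, M ≤ n → v n = 1 ∨ v n = -1)
    (hub : ∀ n, |u n| ≤ 1) (hvb : ∀ n, |v n| ≤ 1)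
    (h1 : ∀ ε : ℝ, 0 < ε → ∃ N0 : ℕ, ∀ N : ℕ, N0 ≤ N → |∑ n ∈ Ioc 0 N, (1 / (n : ℝ)) * u n| ≤ ε * Real.log N)
    (h2 : ∀ ε : ℝ, 0 < ε → ∃ N0 : ℕ, ∀ N : ℕ, N0 ≤ N → |∑ n ∈ Ioc 0 N, (1 / (n : ℝ)) * v n| ≤ ε * Real.log N)
    (h3 : ∀ ε : ℝ, 0 < ε → ∃ N0 : ℕ, ∀ N : ℕ, N0 ≤ N → |∑ n ∈ Ioc 0 N, (1 / (n : ℝ)) * (u n * v n)| ≤ ε * Real.log N)
    (e e' : ℝ) (he : e = 1 ∨ e = -1) (he' : e' = 1 ∨ e' = -1) :
    Tendsto (fun N : ℕ => (1 / Real.log N) * ∑ n ∈ (Icc 1 N).filter (fun n => u n = e ∧ v n = e'), 1 / (n : ℝ))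
      atTop (𝓝 (1 / 4)) := by
  classical
  have hea : |e| = 1 := by rcases he with rfl | rfl <;> simp
  have hea' : |e'| = 1 := by rcases he' with rfl | rfl <;> simp
  set S : ℕ → ℝ := fun N => ∑ n ∈ (Icc 1 N).filter (fun n => u n = e ∧ v n = e'), 1 / (n : ℝ) with hS
  have key : Tendsto (fun N : ℕ => (S N - 1 / 4 * Real.log N) / Real.log N) atTop (𝓝 0) := by
    rw [eps_iff _ _ (log_tendsto.eventually (eventually_gt_atTop 0))]
    intro ε hε
    obtain ⟨N1, b1⟩ := h1 (ε / 2) (by positivity)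
    obtain ⟨N2, b2⟩ := h2 (ε / 2) (by positivity)
    obtain ⟨N3, b3⟩ := h3 (ε / 2) (by positivity)
    obtain ⟨N4, b4⟩ := (log_tendsto.eventually (eventually_ge_atTop (8 * (2 * M + 1) / ε))).exists_forall_of_atTop
    refine ⟨max (max N1 N2) (max N3 (max N4 1)), fun N hN => ?_⟩
    have c1 := b1 N (((le_max_left _ _).trans (le_max_left _ _)).trans hN)
    have c2 := b2 N (((le_max_right _ _).trans (le_max_left _ _)).trans hN)
    have c3 := b3 N (((le_max_left _ _).trans (le_max_right _ _)).trans hN)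
    have c4 := b4 N ((((le_max_left _ _).trans (le_max_right _ _)).trans (le_max_right _ _)).trans hN)
    have c5 : 1 ≤ N := (((le_max_right _ _).trans (le_max_right _ _)).trans (le_max_right _ _)).trans hN
    rw [div_le_iff₀ hε] at c4
    have c6 := harm N c5
    -- comparison
    have d1 : |S N - ∑ n ∈ Ioc 0 N, (1 / (n : ℝ)) * (1 / 4 * ((1 + e * u n) * (1 + e' * v n)))| ≤ 2 * M := by
      have e1 : S N = ∑ n ∈ Ioc 0 N, (1 / (n : ℝ)) * (if u n = e ∧ v n = e' then 1 else 0) := by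
        simp only [hS]
        rw [Finset.sum_filter, Pool.Agent.Y854.ST.Ioc_zero]
        refine Finset.sum_congr rfl fun n _ => ?_
        split_ifs <;> simp
      rw [e1, ← Finset.sum_sub_distrib]
      refine (Finset.abs_sum_le_sum_abs _ _).trans ?_
      have d2 : ∀ n ∈ Ioc 0 N, |(1 / (n : ℝ)) * (if u n = e ∧ v n = e' then 1 else 0) -
          (1 / (n : ℝ)) * (1 / 4 * ((1 + e * u n) * (1 + e' * v n)))| ≤ if n < M then 2 else 0 := by
        intro n hn
        rw [mem_Ioc] at hn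
        split_ifs with h4 h5 h5
        all_goals rw [← mul_sub, abs_mul]
        · have hn1 : (1 : ℝ) ≤ n := by exact_mod_cast hn.1
          have f1 : |(1 : ℝ) / n| ≤ 1 := by
            rw [abs_of_nonneg (by positivity), div_le_one (by linarith)]
            exact hn1
          have f2 : |(1 : ℝ) - 1 / 4 * ((1 + e * u n) * (1 + e' * v n))| ≤ 2 := by
            have g1 : |e * u n| ≤ 1 := by rw [abs_mul, hea, one_mul]; exact hub n
            have g2 : |e' * v n| ≤ 1 := by rw [abs_mul, hea', one_mul]; exact hvb n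
            rw [abs_le] at g1 g2 ⊢
            constructor <;> nlinarith [g1.1, g1.2, g2.1, g2.2]
          calc |(1 : ℝ) / n| * |(1 : ℝ) - 1 / 4 * ((1 + e * u n) * (1 + e' * v n))| ≤ 1 * 2 :=
                mul_le_mul f1 f2 (abs_nonneg _) zero_le_one
            _ = 2 := one_mul 2
        · rw [h4.1, h4.2]
          have g1 : e * e = 1 := by rcases he with rfl | rfl <;> norm_num
          have g2 : e' * e' = 1 := by rcases he' with rfl | rfl <;> norm_num
          rw [g1, g2]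
          norm_num
        · have hn1 : (1 : ℝ) ≤ n := by exact_mod_cast hn.1
          have f1 : |(1 : ℝ) / n| ≤ 1 := by
            rw [abs_of_nonneg (by positivity), div_le_one (by linarith)]
            exact hn1
          have f2 : |(0 : ℝ) - 1 / 4 * ((1 + e * u n) * (1 + e' * v n))| ≤ 2 := by
            have g1 : |e * u n| ≤ 1 := by rw [abs_mul, hea, one_mul]; exact hub n
            have g2 : |e' * v n| ≤ 1 := by rw [abs_mul, hea', one_mul]; exact hvb n
            rw [abs_le] at g1 g2 ⊢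
            constructor <;> nlinarith [g1.1, g1.2, g2.1, g2.2]
          calc |(1 : ℝ) / n| * |(0 : ℝ) - 1 / 4 * ((1 + e * u n) * (1 + e' * v n))| ≤ 1 * 2 :=
                mul_le_mul f1 f2 (abs_nonneg _) zero_le_one
            _ = 2 := one_mul 2
        · have g0 : (1 + e * u n) * (1 + e' * v n) = 0 := by
            rcases hu n (not_lt.1 h5) with hu1 | hu1 <;> rcases hv n (not_lt.1 h5) with hv1 | hv1 <;>
              rcases he with rfl | rfl <;> rcases he' with rfl | rfl <;> rw [hu1, hv1] at h4 ⊢ <;> first | (exfalso; revert h4; norm_num; done) | norm_num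
          rw [g0]
          simp
      refine (Finset.sum_le_sum d2).trans ?_
      rw [← Finset.sum_filter, Finset.sum_const, nsmul_eq_mul]
      have d3 : ((Ioc 0 N).filter fun n => n < M).card ≤ M := by
        calc ((Ioc 0 N).filter fun n => n < M).card ≤ (Finset.range M).card := by
              apply Finset.card_le_card
              intro n hn
              rw [mem_filter] at hn
              exact Finset.mem_range.2 hn.2
          _ = M := Finset.card_range M
      have d4 : (((Ioc 0 N).filter fun n => n < M).card : ℝ) ≤ M := by exact_mod_cast d3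
      linarith
    have d5 : ∑ n ∈ Ioc 0 N, (1 / (n : ℝ)) * (1 / 4 * ((1 + e * u n) * (1 + e' * v n))) =
        1 / 4 * (∑ t ∈ Ioc 0 N, 1 / (t : ℝ) + e * ∑ n ∈ Ioc 0 N, (1 / (n : ℝ)) * u n +
          e' * ∑ n ∈ Ioc 0 N, (1 / (n : ℝ)) * v n + e * e' * ∑ n ∈ Ioc 0 N, (1 / (n : ℝ)) * (u n * v n)) := by
      rw [Finset.mul_sum, Finset.mul_sum, Finset.mul_sum, ← Finset.sum_add_distrib, ← Finset.sum_add_distrib,
        ← Finset.sum_add_distrib, Finset.mul_sum]
      refine Finset.sum_congr rfl fun n _ => ?_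
      ring
    rw [d5] at d1
    have g1 : |e * ∑ n ∈ Ioc 0 N, (1 / (n : ℝ)) * u n| ≤ ε / 2 * Real.log N := by rw [abs_mul, hea, one_mul]; exact c1
    have g2 : |e' * ∑ n ∈ Ioc 0 N, (1 / (n : ℝ)) * v n| ≤ ε / 2 * Real.log N := by rw [abs_mul, hea', one_mul]; exact c2
    have g3 : |e * e' * ∑ n ∈ Ioc 0 N, (1 / (n : ℝ)) * (u n * v n)| ≤ ε / 2 * Real.log N := by
      rw [abs_mul, abs_mul, hea, hea', one_mul, one_mul]; exact c3
    have hM : (0 : ℝ) ≤ M := Nat.cast_nonneg _
    rw [abs_le] at d1 g1 g2 g3 c6 ⊢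
    constructor <;> linarith [d1.1, d1.2, g1.1, g1.2, g2.1, g2.2, g3.1, g3.2, c6.1, c6.2]
  have h5 := key.add_const (1 / 4 : ℝ)
  rw [zero_add] at h5
  refine h5.congr' ?_
  filter_upwards [log_tendsto.eventually (eventually_gt_atTop 0)] with N hN
  have : Real.log (N : ℝ) ≠ 0 := hN.ne'
  field_simp
  ring

end Pool.Agent.U909.CH
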