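import Pool.Agent.U909.CH.Li
import Pool.Agent.U909.CH.Sg

/-!
# Chowla's conjecture along `⌊α n ^ c⌋`, given the mean value law
-/

set_option autoImplicit false

open Finset Filter Topology

namespace Pool.Agent.U909.CH

open Pool.Agent.U909.PW
open Pool.Agent.Y854.PS (ms xs xs_nonneg)

/-- the integer `⌊α n ^ c⌋` -/
noncomputable def val (α c : ℝ) (n : ℕ) : ℤ := ⌊α * (n : ℝ) ^ c⌋

/-- the terms of the sums -/
noncomputable def term (H I K : Finset ℤ) (q : ℕ) (r m : ℤ) : ℝ :=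
  if m ≡ r [ZMOD q] then (∏ h ∈ H, liou (m + h)) * (∏ i ∈ I, moeb (m + i)) * ∏ k ∈ K, moeb (m + k) ^ 2 else 0

/-- mean value zero -/
def MeanZero (s : ℕ → ℝ) : Prop := Tendsto (fun N : ℕ => (∑ n ∈ Icc 1 N, s n) / N) atTop (𝓝 0)

/-- logarithmic mean value zero -/
def LogMeanZero (s : ℕ → ℝ) : Prop := Tendsto (fun N : ℕ => (∑ n ∈ Icc 1 N, s n / n) / Real.log N) atTop (𝓝 0)

/-- power saving -/
def PowerSaving (s : ℕ → ℝ) : Prop := ∃ δ : ℝ, 0 < δ ∧ ∃ N0 : ℕ, ∀ N : ℕ, N0 ≤ N → |∑ n ∈ Icc 1 N, s n| ≤ (N : ℝ) ^ (1 - δ)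

lemma val_ms {α c : ℝ} (hα : 0 < α) (n : ℕ) : val α c n = ((ms α c n : ℕ) : ℤ) := by
  have h := xs_nonneg (c := c) hα n
  unfold val ms
  rw [Int.natCast_floor_eq_floor h]
  rfl

lemma prod_abs {ι : Type*} (s : Finset ι) (f : ι → ℝ) (hf : ∀ i ∈ s, |f i| ≤ 1) : |∏ i ∈ s, f i| ≤ 1 := by
  rw [Finset.abs_prod]
  exact Finset.prod_le_one (fun i _ => abs_nonneg _) hf

lemma term_abs (H I K : Finset ℤ) (q : ℕ) (r m : ℤ) : |term H I K q r m| ≤ 1 := by
  unfold term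
  split_ifs
  · rw [abs_mul, abs_mul]
    have h1 := prod_abs H (fun h => liou (m + h)) fun h _ => liou_abs _
    have h2 := prod_abs I (fun i => moeb (m + i)) fun i _ => moeb_abs _
    have h3 := prod_abs K (fun k => moeb (m + k) ^ 2) fun k _ => by
      rw [abs_pow]
      exact pow_le_one₀ (abs_nonneg _) (moeb_abs _)
    exact mul_le_one₀ (mul_le_one₀ h1 (abs_nonneg _) h2) (abs_nonneg _) h3
  · simp

lemma grow (H I K : Finset ℤ) (q : ℕ) (r : ℤ) (κ : ℝ) (hκ : 0 < κ) : ∃ C : ℝ, 0 < C ∧ ∀ m : ℕ, 1 ≤ m →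
    |term H I K q r m| ≤ C * (m : ℝ) ^ κ := by
  refine ⟨1, one_pos, fun m hm => (term_abs H I K q r m).trans ?_⟩
  rw [one_mul]
  exact Real.one_le_rpow (by exact_mod_cast hm) hκ.le

lemma mean_iff (s : ℕ → ℝ) : MeanZero s ↔ ∀ ε : ℝ, 0 < ε → ∃ N0 : ℕ, ∀ N : ℕ, N0 ≤ N → |∑ n ∈ Ioc 0 N, s n| ≤ ε * N := by
  unfold MeanZero
  rw [eps_iff _ _ (by
    filter_upwards [eventually_ge_atTop 1] with N hN
    exact_mod_cast (by omega : 0 < N))]
  simp only [Pool.Agent.Y854.ST.Ioc_zero]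

lemma logmean_iff (s : ℕ → ℝ) : LogMeanZero s ↔
    ∀ ε : ℝ, 0 < ε → ∃ N0 : ℕ, ∀ N : ℕ, N0 ≤ N → |∑ n ∈ Ioc 0 N, (1 / (n : ℝ)) * s n| ≤ ε * Real.log N := by
  unfold LogMeanZero
  rw [eps_iff _ _ (log_tendsto.eventually (eventually_gt_atTop 0))]
  have e : ∀ N : ℕ, ∑ n ∈ Ioc 0 N, (1 / (n : ℝ)) * s n = ∑ n ∈ Icc 1 N, s n / n := fun N => by
    rw [Pool.Agent.Y854.ST.Ioc_zero]
    exact Finset.sum_congr rfl fun n _ => by ring
  simp only [e]

lemma power_iff (s : ℕ → ℝ) : PowerSaving s ↔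
    ∃ δ : ℝ, 0 < δ ∧ ∃ N0 : ℕ, ∀ N : ℕ, N0 ≤ N → |∑ n ∈ Ioc 0 N, s n| ≤ (N : ℝ) ^ (1 - δ) := by
  unfold PowerSaving
  simp only [Pool.Agent.Y854.ST.Ioc_zero]

theorem main {α c : ℝ} (hα : 0 < α) (hc : 1 < c)
    (hlaw : ∀ (H I K : Finset ℤ) (q : ℕ) (r : ℤ), Law α c (fun t : ℕ => term H I K q r t)) :
    (∀ (H I K : Finset ℤ) (q : ℕ) (r : ℤ),
      (MeanZero (fun n => term H I K q r (val α c n)) ↔ MeanZero (fun m => term H I K q r m)) ∧
      (LogMeanZero (fun n => term H I K q r (val α c n)) ↔ LogMeanZero (fun m => term H I K q r m)) ∧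
      (PowerSaving (fun n => term H I K q r (val α c n)) ↔ PowerSaving (fun m => term H I K q r m))) ∧
    (∀ f : ℤ → ℝ, f = liou ∨ f = moeb → ∀ (k : ℤ) (q : ℕ) (r : ℤ), 1 ≤ q → ∀ A : ℕ, ∃ N0 : ℕ, ∀ N : ℕ, N0 ≤ N →
      |∑ n ∈ (Icc 1 N).filter (fun n => val α c n ≡ r [ZMOD q]), f (val α c n + k)| ≤ N / Real.log N ^ A) ∧
    (∀ f : ℤ → ℝ, f = liou ∨ f = moeb → ∀ k k' : ℤ, k ≠ k' →
      LogMeanZero (fun n => f (val α c n + k) * f (val α c n + k'))) ∧
    (∀ k k' : ℤ, k ≠ k' → ∀ e e' : ℝ, e = 1 ∨ e = -1 → e' = 1 ∨ e' = -1 →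
      Tendsto (fun N : ℕ => (1 / Real.log N) * ∑ n ∈ (Icc 1 N).filter
        (fun n => liou (val α c n + k) = e ∧ liou (val α c n + k') = e'), 1 / (n : ℝ)) atTop (𝓝 (1 / 4))) := by
  classical
  have hgood : ∀ f : ℤ → ℝ, f = liou ∨ f = moeb → Good f := by
    rintro f (rfl | rfl)
    · exact good_liou
    · exact good_moeb
  -- the laws
  have law1 : ∀ f : ℤ → ℝ, f = liou ∨ f = moeb → ∀ (k : ℤ) (q : ℕ) (r : ℤ),
      Law α c (fun t : ℕ => if (t : ℤ) ≡ r [ZMOD q] then f ((t : ℤ) + k) else 0) := by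
    rintro f (rfl | rfl) k q r
    · have := hlaw {k} ∅ ∅ q r
      simpa only [term, Finset.prod_singleton, Finset.prod_empty, mul_one] using this
    · have := hlaw ∅ {k} ∅ q r
      simpa only [term, Finset.prod_singleton, Finset.prod_empty, mul_one, one_mul] using this
  have hm : ∀ (t : ℤ), t ≡ 0 [ZMOD (1 : ℕ)] := fun t => by
    rw [Nat.cast_one]
    exact Int.modEq_one
  have law2 : ∀ f : ℤ → ℝ, f = liou ∨ f = moeb → ∀ k k' : ℤ, k ≠ k' →
      Law α c (fun t : ℕ => f ((t : ℤ) + k) * f ((t : ℤ) + k')) := by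
    rintro f (rfl | rfl) k k' hk
    · have := hlaw {k, k'} ∅ ∅ 1 0
      simpa only [term, if_pos (hm _), Finset.prod_pair hk, Finset.prod_empty, mul_one] using this
    · have := hlaw ∅ {k, k'} ∅ 1 0
      simpa only [term, if_pos (hm _), Finset.prod_pair hk, Finset.prod_empty, mul_one, one_mul] using this
  -- the two-point logarithmic means
  have two : ∀ f : ℤ → ℝ, f = liou ∨ f = moeb → ∀ k k' : ℤ, k ≠ k' →
      ∀ ε : ℝ, 0 < ε → ∃ N0 : ℕ, ∀ N : ℕ, N0 ≤ N →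
      |∑ n ∈ Ioc 0 N, (1 / (n : ℝ)) * (f (((ms α c n : ℕ) : ℤ) + k) * f (((ms α c n : ℕ) : ℤ) + k'))| ≤ ε * Real.log N := by
    intro f hf k k' hk
    have hg := hgood f hf
    have hb : ∀ t : ℕ, |f ((t : ℤ) + k) * f ((t : ℤ) + k')| ≤ 1 := fun t => by
      rw [abs_mul]
      exact mul_le_one₀ (hg.bd _) (abs_nonneg _) (hg.bd _)
    refine (lg hα hc _ hb (law2 f hf k k' hk)).2 ?_
    rcases lt_or_gt_of_ne hk with h | h
    · exact two_nat f hg k k' h
    · have h1 := two_nat f hg k' k h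
      simpa only [mul_comm (f (_ + k'))] using h1
  -- one factor
  have one : ∀ f : ℤ → ℝ, f = liou ∨ f = moeb → ∀ k : ℤ,
      ∀ ε : ℝ, 0 < ε → ∃ N0 : ℕ, ∀ N : ℕ, N0 ≤ N →
      |∑ n ∈ Ioc 0 N, (1 / (n : ℝ)) * f (((ms α c n : ℕ) : ℤ) + k)| ≤ ε * Real.log N := by
    intro f hf k
    have hg := hgood f hf
    have h1 := law1 f hf k 1 0
    have h2 := sw_one f hg k 1 le_rfl 0
    simp only [if_pos (hm _)] at h1 h2
    exact (lg hα hc (fun t : ℕ => f ((t : ℤ) + k)) (fun t => hg.bd _) h1).2 (ces_log _ (fun t => hg.bd _) (sw_eps _ h2))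
  refine ⟨fun H I K q r => ⟨?_, ?_, ?_⟩, ?_, ?_, ?_⟩
  · rw [mean_iff, mean_iff]
    simp only [val_ms hα]
    exact ces hα hc _ (fun t => term_abs H I K q r t) (hlaw H I K q r)
  · rw [logmean_iff, logmean_iff]
    simp only [val_ms hα]
    exact lg hα hc (fun t : ℕ => term H I K q r t) (fun t => term_abs H I K q r t) (hlaw H I K q r)
  · rw [power_iff, power_iff]
    simp only [val_ms hα]
    exact pow_iff hα hc _ (fun t => term_abs H I K q r t) (hlaw H I K q r)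
  · intro f hf k q r hq A
    have h1 : SW (fun t : ℕ => (if (t : ℤ) ≡ r [ZMOD q] then f ((t : ℤ) + k) else 0) - 0) := by
      simpa only [sub_zero] using sw_one f (hgood f hf) k q hq r
    obtain ⟨N0, h2⟩ := seq_log hα hc _ (law1 f hf k q r) h1 A
    refine ⟨N0, fun N hN => ?_⟩
    have h3 := h2 N hN
    rw [zero_mul, sub_zero] at h3
    rw [Finset.sum_filter]
    simp only [val_ms hα]
    exact h3
  · intro f hf k k' hk
    rw [logmean_iff]
    simp only [val_ms hα]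
    exact two f hf k k' hk
  · intro k k' hk e e' he he'
    -- the values are signs for large `n`
    have hlarge : ∀ j : ℤ, ∀ᶠ n : ℕ in atTop, liou (val α c n + j) = 1 ∨ liou (val α c n + j) = -1 := by
      intro j
      filter_upwards [ms_ge hα hc, eventually_ge_atTop (j.natAbs + 1)] with n h1 h2
      rw [val_ms hα]
      unfold liou
      rw [if_neg (by omega)]
      exact neg_one_pow_eq_or ℝ _
    obtain ⟨M, hM⟩ := ((hlarge k).and (hlarge k')).exists_forall_of_atTop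
    refine signs (fun n => liou (val α c n + k)) (fun n => liou (val α c n + k')) M (fun n hn => (hM n hn).1)
      (fun n hn => (hM n hn).2) (fun n => liou_abs _) (fun n => liou_abs _) ?_ ?_ ?_ e e' he he'
    · simp only [val_ms hα]
      exact one liou (Or.inl rfl) k
    · simp only [val_ms hα]
      exact one liou (Or.inl rfl) k'
    · simp only [val_ms hα]
      exact two liou (Or.inl rfl) k k' hk

end Pool.Agent.U909.CH
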