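import Pool.Agent.U909.PW.Seq

/-!
# Cesàro means and logarithmic means along the sequence `⌊α n ^ c⌋`
-/

set_option autoImplicit false

open Finset Filter Topology

namespace Pool.Agent.U909.CH

open Pool.Agent.U909.PW
open Pool.Agent.Y854.PS (wt wt_nonneg wt_anti ms xs xs_nonneg ms_mono xs_mono)
open Pool.Agent.Y854.ST (sum_wt_up sum_wt_low wsum)

lemma ms_zero {α c : ℝ} (hc : 1 < c) : ms α c 0 = 0 := by
  unfold ms xs
  rw [Nat.cast_zero, Real.zero_rpow (by linarith), mul_zero, Nat.floor_zero]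

lemma wt_pos {c : ℝ} (hc : 1 < c) {t : ℕ} (ht : 1 ≤ t) : 0 < wt c t := by
  unfold wt
  have : (0 : ℝ) < t := by exact_mod_cast (by omega : 0 < t)
  positivity

/-- between two consecutive terms of the sequence -/
lemma between {α c : ℝ} (hα : 0 < α) (hc : 1 < c) (M Y : ℕ) (hY : ms α c M ≤ Y) :
    ∃ N : ℕ, M ≤ N ∧ ms α c N ≤ Y ∧ Y ≤ ms α c (N + 1) := by
  classical
  have hc0 : 0 < c := by linarith
  have hex : ∃ N : ℕ, Y < ms α c N := by
    obtain ⟨K, hK⟩ := (ms_ge hα hc).exists_forall_of_atTop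
    refine ⟨max K (Y + 1), ?_⟩
    have := hK (max K (Y + 1)) (le_max_left _ _)
    have h6 := le_max_right K (Y + 1)
    omega
  set K := Nat.find hex with hK
  have hK1 : Y < ms α c K := Nat.find_spec hex
  have hK2 : M < K := by
    by_contra hcon
    push Not at hcon
    have := ms_mono hα hc0.le hcon
    omega
  refine ⟨K - 1, by omega, ?_, ?_⟩
  · have := Nat.find_min hex (show K - 1 < K by omega)
    omega
  · rw [Nat.sub_add_cancel (by omega)]
    exact hK1.le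

/-- the index of the block of `Y` -/
lemma idx_le {α c : ℝ} (hα : 0 < α) (hc : 1 < c) {N Y : ℕ} (h : ms α c N ≤ Y) :
    (N : ℝ) ≤ α ^ (-(1 / c)) * ((Y : ℝ) + 1) ^ (1 / c) := by
  have hc0 : 0 < c := by linarith
  have b3 : xs α c N < (Y : ℝ) + 1 := by
    have b4 : xs α c N < ((ms α c N : ℕ) : ℝ) + 1 := Nat.lt_floor_add_one _
    have b5 : ((ms α c N : ℕ) : ℝ) ≤ Y := by exact_mod_cast h
    linarith
  have b6 := Real.rpow_le_rpow (xs_nonneg hα N) b3.le (show 0 ≤ 1 / c by positivity)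
  have e : α ^ (-(1 / c)) * (xs α c N) ^ (1 / c) = N := by
    unfold xs
    rw [Real.mul_rpow hα.le (by positivity), ← Real.rpow_mul (Nat.cast_nonneg N),
      mul_one_div_cancel hc0.ne', Real.rpow_one, ← mul_assoc, ← Real.rpow_add hα]
    simp
  have h2 := mul_le_mul_of_nonneg_left b6 (show 0 ≤ α ^ (-(1 / c)) by positivity)
  linarith

lemma G_le {α c : ℝ} (g : ℕ → ℝ) (hg : ∀ t, |g t| ≤ 1) (N : ℕ) : |∑ n ∈ Icc 1 N, g (ms α c n)| ≤ N := by
  refine (Finset.abs_sum_le_sum_abs _ _).trans ?_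
  calc ∑ n ∈ Icc 1 N, |g (ms α c n)| ≤ ∑ _n ∈ Icc 1 N, (1 : ℝ) := Finset.sum_le_sum fun n _ => hg _
    _ = N := by rw [Finset.sum_const, Nat.card_Icc, nsmul_eq_mul, mul_one, Nat.add_sub_cancel]

lemma W_le {c : ℝ} (hc : 1 < c) (g : ℕ → ℝ) (hg : ∀ t, |g t| ≤ 1) (X Y : ℕ) :
    |∑ t ∈ Ioc X Y, wt c t * g t| ≤ ∑ t ∈ Ioc X Y, wt c t := by
  refine (Finset.abs_sum_le_sum_abs _ _).trans (Finset.sum_le_sum fun t _ => ?_)
  rw [abs_mul, abs_of_nonneg (wt_nonneg hc t)]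
  have := mul_le_mul_of_nonneg_left (hg t) (wt_nonneg hc t)
  linarith

lemma Ioc_split (f : ℕ → ℝ) {X Y : ℕ} (h : X ≤ Y) : ∑ t ∈ Ioc 0 Y, f t = ∑ t ∈ Ioc 0 X, f t + ∑ t ∈ Ioc X Y, f t := by
  rw [← Finset.sum_union (Finset.disjoint_left.2 fun t h1 h2 => by
    rw [mem_Ioc] at h1 h2; omega), Finset.Ioc_union_Ioc_eq_Ioc (Nat.zero_le X) h]

/-- the total weight of a block -/
lemma block_wt {α c : ℝ} (hα : 0 < α) (hc : 1 < c) (N : ℕ) :
    α ^ (-(1 / c)) * ∑ t ∈ Ioc (ms α c N) (ms α c (N + 1)), wt c t ≤ 1 + α ^ (-(1 / c)) := by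
  have hc0 : 0 < c := by linarith
  have h1 := wsum hα hc N
  have h2 := wsum hα hc (N + 1)
  have h3 := Ioc_split (wt c) (ms_mono hα hc0.le (Nat.le_succ N))
  rw [h3, mul_add] at h2
  push_cast at h2
  linarith [h1.1, h2.2]

/-- the error term of the law for all `N` -/
lemma law_all {α c : ℝ} (hα : 0 < α) (hc : 1 < c) (g : ℕ → ℝ) (hg : ∀ t, |g t| ≤ 1) (hL : Law α c g) :
    ∃ κ : ℝ, 0 < κ ∧ κ < 1 ∧ ∃ C : ℝ, 0 ≤ C ∧ ∀ N : ℕ,
      |∑ n ∈ Icc 1 N, g (ms α c n) - α ^ (-(1 / c)) * ∑ t ∈ Ioc 0 (ms α c N), wt c t * g t| ≤ C * (N : ℝ) ^ (1 - κ) := by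
  obtain ⟨κ, hκ, hκ1, N0, h⟩ := hL
  refine ⟨κ, hκ, hκ1, 2 * N0 + 1, by positivity, fun N => ?_⟩
  rcases Nat.eq_zero_or_pos N with rfl | hN
  · rw [ms_zero hc]
    simp
    positivity
  have hNr : (1 : ℝ) ≤ N := by exact_mod_cast hN
  have hp : (1 : ℝ) ≤ (N : ℝ) ^ (1 - κ) := Real.one_le_rpow hNr (by linarith)
  rcases le_or_gt N0 N with hN0 | hN0
  · refine (h N hN0).trans ?_
    have : (0 : ℝ) ≤ N0 := Nat.cast_nonneg _
    nlinarith
  · have a0 : 0 < α ^ (-(1 / c)) := Real.rpow_pos_of_pos hα _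
    have h1 := G_le (α := α) (c := c) g hg N
    have h2 := mul_le_mul_of_nonneg_left (W_le hc g hg 0 (ms α c N)) a0.le
    have h3 := (wsum hα hc N).2
    have h4 : |α ^ (-(1 / c)) * ∑ t ∈ Ioc 0 (ms α c N), wt c t * g t| ≤ N := by
      rw [abs_mul, abs_of_pos a0]; linarith
    have h5 := abs_sub (∑ n ∈ Icc 1 N, g (ms α c n)) (α ^ (-(1 / c)) * ∑ t ∈ Ioc 0 (ms α c N), wt c t * g t)
    have h6 : (N : ℝ) ≤ N0 := by exact_mod_cast hN0.le
    nlinarith

/-- sums of inverse powers -/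
lemma pow_sum {κ : ℝ} (hκ : 0 < κ) : ∃ S : ℝ, 0 ≤ S ∧ ∀ N : ℕ, ∑ t ∈ Ioc 0 N, (1 / (t : ℝ)) * (t : ℝ) ^ (-κ) ≤ S := by
  have hs : Summable fun t : ℕ => 1 / (t : ℝ) ^ (1 + κ) := Real.summable_one_div_nat_rpow.mpr (by linarith)
  refine ⟨∑' t : ℕ, 1 / (t : ℝ) ^ (1 + κ), tsum_nonneg fun t => by positivity, fun N => ?_⟩
  refine le_trans (Finset.sum_le_sum fun t ht => ?_) (hs.sum_le_tsum (Ioc 0 N) fun t _ => by positivity)
  rw [mem_Ioc] at ht
  have ht0 : (0 : ℝ) < t := by exact_mod_cast ht.1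
  rw [Real.rpow_add ht0, Real.rpow_one, Real.rpow_neg ht0.le]
  apply le_of_eq
  field_simp

lemma pow_part (κ : ℝ) (hκ : 0 < κ) (N : ℕ) : (N : ℝ) ^ (1 - κ) ≤ ∑ t ∈ Ioc 0 N, (t : ℝ) ^ (-κ) ∨ N = 0 := by
  rcases Nat.eq_zero_or_pos N with rfl | hN
  · right; rfl
  left
  have hN0 : (0 : ℝ) < N := by exact_mod_cast hN
  calc (N : ℝ) ^ (1 - κ) = ∑ _t ∈ Ioc 0 N, (N : ℝ) ^ (-κ) := by
        rw [Finset.sum_const, Nat.card_Ioc, Nat.sub_zero, nsmul_eq_mul, sub_eq_add_neg, Real.rpow_add hN0, Real.rpow_one]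
    _ ≤ _ := by
        refine Finset.sum_le_sum fun t ht => ?_
        rw [mem_Ioc] at ht
        have ht0 : (0 : ℝ) < t := by exact_mod_cast ht.1
        exact Real.rpow_le_rpow_of_nonpos ht0 (by exact_mod_cast ht.2) (by linarith)

/-- logarithmic sums of a sequence with small partial sums are bounded -/
lemma log_bdd (u : ℕ → ℝ) (κ C : ℝ) (hκ : 0 < κ) (hC : 0 ≤ C)
    (h : ∀ N : ℕ, 1 ≤ N → |∑ t ∈ Ioc 0 N, u t| ≤ C * (N : ℝ) ^ (1 - κ)) :
    ∃ B : ℝ, 0 ≤ B ∧ ∀ N : ℕ, |∑ t ∈ Ioc 0 N, (1 / (t : ℝ)) * u t| ≤ B := by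
  obtain ⟨S, hS, hS2⟩ := pow_sum hκ
  refine ⟨C * S, by positivity, fun N => ?_⟩
  have h1 := dom (fun t : ℕ => 1 / (t : ℝ)) u (fun t => C * (t : ℝ) ^ (-κ)) (fun t _ => by positivity) (fun t ht => by
    have ht0 : (0 : ℝ) < t := by exact_mod_cast (by omega : 0 < t)
    push_cast
    exact one_div_le_one_div_of_le ht0 (by linarith)) N (fun t ht _ => by
      refine (h t ht).trans ?_
      rw [← Finset.mul_sum]
      rcases pow_part κ hκ t with h2 | h2
      · exact mul_le_mul_of_nonneg_left h2 hC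
      · omega)
  refine h1.trans ?_
  have e : ∑ t ∈ Ioc 0 N, 1 / (t : ℝ) * (C * (t : ℝ) ^ (-κ)) = C * ∑ t ∈ Ioc 0 N, (1 / (t : ℝ)) * (t : ℝ) ^ (-κ) := by
    rw [Finset.mul_sum]
    exact Finset.sum_congr rfl fun t _ => by ring
  rw [e]
  exact mul_le_mul_of_nonneg_left (hS2 N) hC

lemma tele (f : ℕ → ℝ) (N : ℕ) : ∑ t ∈ Ioc 0 N, (f t - f (t - 1)) = f N - f 0 := by
  induction N with
  | zero => simp
  | succ N ih =>
    rw [← Finset.insert_Ioc_right_eq_Ioc_add_one (Nat.zero_le N), Finset.sum_insert (by simp), ih]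
    simp only [Nat.add_sub_cancel]
    ring

/-- one block -/
lemma block_term {α c : ℝ} (hα : 0 < α) (hc : 1 < c) {n t : ℕ} (hn : 1 ≤ n) (h1 : ms α c (n - 1) < t) (h2 : t ≤ ms α c n) :
    |α ^ (-(1 / c)) * wt c t / n - 1 / (c * t)| ≤ 1 / (c * t * n) ∧
      ((n : ℝ) - 1) / (c * t) ≤ α ^ (-(1 / c)) * wt c t := by
  have hc0 : 0 < c := by linarith
  have ht : 1 ≤ t := by omega
  have ht0 : (0 : ℝ) < t := by exact_mod_cast (by omega : 0 < t)
  have hn0 : (0 : ℝ) < n := by exact_mod_cast (by omega : 0 < n)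
  set a := α ^ (-(1 / c)) with ha
  have ha0 : 0 < a := Real.rpow_pos_of_pos hα _
  have e1 : ∀ m : ℕ, a * (xs α c m) ^ (1 / c) = m := by
    intro m
    unfold xs
    rw [Real.mul_rpow hα.le (by positivity), ← Real.rpow_mul (Nat.cast_nonneg m),
      mul_one_div_cancel hc0.ne', Real.rpow_one, ← mul_assoc, ha, ← Real.rpow_add hα]
    simp
  have u1 : a * (t : ℝ) ^ (1 / c) ≤ n := by
    rw [← e1 n]
    apply mul_le_mul_of_nonneg_left _ ha0.le
    apply Real.rpow_le_rpow ht0.le _ (by positivity)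
    have : (t : ℝ) ≤ (ms α c n : ℕ) := by exact_mod_cast h2
    exact this.trans (Nat.floor_le (xs_nonneg hα n))
  have u2 : (n : ℝ) - 1 ≤ a * (t : ℝ) ^ (1 / c) := by
    have e2 : ((n - 1 : ℕ) : ℝ) = n - 1 := by
      rw [Nat.cast_sub hn]; simp
    rw [← e2, ← e1 (n - 1)]
    apply mul_le_mul_of_nonneg_left _ ha0.le
    apply Real.rpow_le_rpow (xs_nonneg hα _) _ (by positivity)
    have h3 : xs α c (n - 1) < ((ms α c (n - 1) : ℕ) : ℝ) + 1 := Nat.lt_floor_add_one _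
    have h4 : ((ms α c (n - 1) : ℕ) : ℝ) + 1 ≤ t := by exact_mod_cast h1
    linarith
  have e3 : wt c t = (t : ℝ) ^ (1 / c) / (c * t) := by
    unfold wt
    rw [Real.rpow_sub ht0, Real.rpow_one]
    field_simp
  constructor
  · have e4 : a * wt c t / n - 1 / (c * t) = (a * (t : ℝ) ^ (1 / c) - n) / (c * t * n) := by
      rw [e3]
      field_simp
    rw [e4, abs_div, abs_of_pos (show 0 < c * t * n by positivity)]
    apply div_le_div_of_nonneg_right _ (by positivity)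
    rw [abs_le]
    constructor <;> linarith
  · rw [e3, ← mul_div_assoc]
    apply div_le_div_of_nonneg_right u2 (by positivity)

/-- **Logarithmic sums along the sequence and of the sequence of all integers.** -/
theorem log_avg {α c : ℝ} (hα : 0 < α) (hc : 1 < c) (g : ℕ → ℝ) (hg : ∀ t, |g t| ≤ 1) (hL : Law α c g) :
    ∃ B : ℝ, ∀ N : ℕ, |∑ n ∈ Ioc 0 N, (1 / (n : ℝ)) * g (ms α c n) -
      (1 / c) * ∑ t ∈ Ioc 0 (ms α c N), (1 / (t : ℝ)) * g t| ≤ B := by
  have hc0 : 0 < c := by linarith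
  obtain ⟨κ, hκ, hκ1, C, hC, hR⟩ := law_all hα hc g hg hL
  set a := α ^ (-(1 / c)) with ha
  have ha0 : 0 < a := Real.rpow_pos_of_pos hα _
  set G : ℕ → ℝ := fun N => ∑ n ∈ Icc 1 N, g (ms α c n) with hG
  set W : ℕ → ℝ := fun N => ∑ t ∈ Ioc 0 (ms α c N), wt c t * g t with hW
  have hG0 : G 0 = 0 := by simp [hG]
  have hW0 : W 0 = 0 := by simp only [hW, ms_zero hc]; simp
  obtain ⟨B1, hB1, h1⟩ := log_bdd (fun n => (G n - a * W n) - (G (n - 1) - a * W (n - 1))) κ C hκ hC (fun N hN => by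
    rw [tele (fun n => G n - a * W n) N, hG0, hW0, mul_zero, sub_zero, sub_zero]
    exact hR N)
  have hGs : ∀ n, 1 ≤ n → G n - G (n - 1) = g (ms α c n) := by
    intro n hn
    obtain ⟨m, rfl⟩ := Nat.exists_eq_add_of_le' hn
    simp only [hG, Nat.add_sub_cancel]
    rw [Finset.sum_Icc_succ_top (by omega)]
    ring
  have hWs : ∀ n, 1 ≤ n → W n - W (n - 1) = ∑ t ∈ Ioc (ms α c (n - 1)) (ms α c n), wt c t * g t := by
    intro n hn
    simp only [hW]
    rw [Ioc_split (fun t => wt c t * g t) (ms_mono hα hc0.le (Nat.sub_le n 1))]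
    ring
  have hblocks : ∀ (f : ℕ → ℝ) (N : ℕ), ∑ t ∈ Ioc 0 (ms α c N), f t =
      ∑ n ∈ Ioc 0 N, ∑ t ∈ Ioc (ms α c (n - 1)) (ms α c n), f t := by
    intro f N
    induction N with
    | zero => rw [ms_zero hc]; simp
    | succ N ih =>
      rw [← Finset.insert_Ioc_right_eq_Ioc_add_one (Nat.zero_le N), Finset.sum_insert (by simp), ← ih]
      rw [Nat.add_sub_cancel, Ioc_split f (ms_mono hα hc0.le (Nat.le_add_right N 1))]
      ring
  -- the bound for the blocks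
  have hb : ∀ n : ℕ, 1 ≤ n → |∑ t ∈ Ioc (ms α c (n - 1)) (ms α c n), (a * wt c t / n - 1 / (c * t)) * g t| ≤
      if n = 1 then ∑ t ∈ Ioc (ms α c 0) (ms α c 1), 1 / (c * t * 1) else (1 + a) * (1 / ((n : ℝ) * (n - 1))) := by
    intro n hn
    have h2 : |∑ t ∈ Ioc (ms α c (n - 1)) (ms α c n), (a * wt c t / n - 1 / (c * t)) * g t| ≤
        ∑ t ∈ Ioc (ms α c (n - 1)) (ms α c n), 1 / (c * t * n) := by
      refine (Finset.abs_sum_le_sum_abs _ _).trans (Finset.sum_le_sum fun t ht => ?_)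
      rw [mem_Ioc] at ht
      have h3 := (block_term hα hc hn ht.1 ht.2).1
      rw [abs_mul]
      calc |a * wt c t / n - 1 / (c * t)| * |g t| ≤ (1 / (c * t * n)) * 1 := by
            apply mul_le_mul h3 (hg t) (abs_nonneg _) (by positivity)
        _ = _ := mul_one _
    by_cases h1n : n = 1
    · rw [if_pos h1n]
      subst h1n
      simpa using h2
    · rw [if_neg h1n]
      refine h2.trans ?_
      have hn2 : (2 : ℝ) ≤ n := by exact_mod_cast (by omega : 2 ≤ n)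
      have hn1 : (0 : ℝ) < (n : ℝ) - 1 := by linarith
      have h3 : ∑ t ∈ Ioc (ms α c (n - 1)) (ms α c n), 1 / (c * t * n) ≤
          ∑ t ∈ Ioc (ms α c (n - 1)) (ms α c n), (1 / ((n : ℝ) * (n - 1))) * (a * wt c t) := by
        refine Finset.sum_le_sum fun t ht => ?_
        rw [mem_Ioc] at ht
        have h4 := (block_term hα hc hn ht.1 ht.2).2
        have ht0 : (0 : ℝ) < t := by exact_mod_cast (by omega : 0 < t)
        have h5 : 1 / (c * t * n) = (1 / ((n : ℝ) * (n - 1))) * (((n : ℝ) - 1) / (c * t)) := by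
          field_simp
        rw [h5]
        exact mul_le_mul_of_nonneg_left h4 (by positivity)
      refine h3.trans ?_
      rw [← Finset.mul_sum, ← Finset.mul_sum, mul_comm (1 + a)]
      apply mul_le_mul_of_nonneg_left _ (by positivity)
      have h6 := block_wt hα hc (n - 1)
      rw [Nat.sub_add_cancel hn] at h6
      exact h6
  set K := ∑ t ∈ Ioc (ms α c 0) (ms α c 1), 1 / (c * (t : ℝ) * 1) with hK
  have hK0 : 0 ≤ K := Finset.sum_nonneg fun t _ => by positivity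
  have hsum : ∀ N : ℕ, 1 ≤ N → ∑ n ∈ Ioc 0 N, (if n = 1 then K else (1 + a) * (1 / ((n : ℝ) * (n - 1)))) =
      K + (1 + a) * (1 - 1 / N) := by
    intro N hN
    induction N, hN using Nat.le_induction with
    | base => simp
    | succ N hN ih =>
      rw [← Finset.insert_Ioc_right_eq_Ioc_add_one (Nat.zero_le N), Finset.sum_insert (by simp), ih, if_neg (by omega)]
      have hNr : (0 : ℝ) < N := by exact_mod_cast hN
      push_cast
      have e5 : (N : ℝ) + 1 - 1 = N := by ring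
      rw [e5]
      field_simp
      ring
  refine ⟨B1 + (K + (1 + a)), fun N => ?_⟩
  rcases Nat.eq_zero_or_pos N with rfl | hN
  · rw [ms_zero hc]
    simp
    positivity
  have e1 : ∑ n ∈ Ioc 0 N, (1 / (n : ℝ)) * g (ms α c n) - (1 / c) * ∑ t ∈ Ioc 0 (ms α c N), (1 / (t : ℝ)) * g t =
      ∑ n ∈ Ioc 0 N, (1 / (n : ℝ)) * ((G n - a * W n) - (G (n - 1) - a * W (n - 1))) +
      ∑ n ∈ Ioc 0 N, ∑ t ∈ Ioc (ms α c (n - 1)) (ms α c n), (a * wt c t / n - 1 / (c * t)) * g t := by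
    rw [hblocks, Finset.mul_sum, ← Finset.sum_sub_distrib, ← Finset.sum_add_distrib]
    refine Finset.sum_congr rfl fun n hn => ?_
    rw [mem_Ioc] at hn
    have h2 := hGs n hn.1
    have h3 := hWs n hn.1
    have h4 : ∑ t ∈ Ioc (ms α c (n - 1)) (ms α c n), (a * wt c t / n - 1 / (c * t)) * g t =
        (a / n) * ∑ t ∈ Ioc (ms α c (n - 1)) (ms α c n), wt c t * g t -
        (1 / c) * ∑ t ∈ Ioc (ms α c (n - 1)) (ms α c n), (1 / (t : ℝ)) * g t := by
      rw [Finset.mul_sum, Finset.mul_sum, ← Finset.sum_sub_distrib]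
      refine Finset.sum_congr rfl fun t ht => ?_
      rw [mem_Ioc] at ht
      have ht0 : (0 : ℝ) < t := by exact_mod_cast (by omega : 0 < t)
      have hn0 : (0 : ℝ) < n := by exact_mod_cast hn.1
      field_simp
    rw [h4, ← h3, ← h2]
    ring
  rw [e1]
  refine (abs_add_le _ _).trans (add_le_add (h1 N) ?_)
  refine (Finset.abs_sum_le_sum_abs _ _).trans ?_
  refine (Finset.sum_le_sum fun n hn => hb n (mem_Ioc.1 hn).1).trans ?_
  rw [hsum N hN]
  have hNr : (0 : ℝ) < N := by exact_mod_cast hN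
  have h5 : (0 : ℝ) ≤ 1 / N := by positivity
  nlinarith

/-- **Cesàro means.** -/
theorem ces {α c : ℝ} (hα : 0 < α) (hc : 1 < c) (g : ℕ → ℝ) (hg : ∀ t, |g t| ≤ 1) (hL : Law α c g) :
    (∀ ε : ℝ, 0 < ε → ∃ N0 : ℕ, ∀ N : ℕ, N0 ≤ N → |∑ n ∈ Ioc 0 N, g (ms α c n)| ≤ ε * N) ↔
    (∀ ε : ℝ, 0 < ε → ∃ N0 : ℕ, ∀ N : ℕ, N0 ≤ N → |∑ t ∈ Ioc 0 N, g t| ≤ ε * N) := by
  have hc0 : 0 < c := by linarith
  obtain ⟨κ, hκ, hκ1, C, hC, hR⟩ := law_all hα hc g hg hL
  set a := α ^ (-(1 / c)) with ha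
  have ha0 : 0 < a := Real.rpow_pos_of_pos hα _
  have hpow : ∀ ε : ℝ, 0 < ε → ∀ K : ℝ, ∃ N0 : ℕ, ∀ N : ℕ, N0 ≤ N → C * (N : ℝ) ^ (1 - κ) + K ≤ ε * N := by
    intro ε hε K
    have h1 : Tendsto (fun N : ℕ => (N : ℝ) ^ κ) atTop atTop :=
      (tendsto_rpow_atTop hκ).comp tendsto_natCast_atTop_atTop
    obtain ⟨N0, h2⟩ := ((h1.eventually (eventually_ge_atTop ((C + |K|) / ε))).and (eventually_ge_atTop 1)).exists_forall_of_atTop
    refine ⟨N0, fun N hN => ?_⟩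
    obtain ⟨h3, h4⟩ := h2 N hN
    have hNr : (1 : ℝ) ≤ N := by exact_mod_cast h4
    have hN0 : (0 : ℝ) < N := by linarith
    rw [div_le_iff₀ hε] at h3
    have h5 : (N : ℝ) = (N : ℝ) ^ κ * (N : ℝ) ^ (1 - κ) := by
      rw [← Real.rpow_add hN0]; simp
    have h6 : (1 : ℝ) ≤ (N : ℝ) ^ (1 - κ) := Real.one_le_rpow hNr (by linarith)
    have h7 := mul_le_mul_of_nonneg_right h3 (show 0 ≤ (N : ℝ) ^ (1 - κ) by positivity)
    have h8 : K ≤ |K| * (N : ℝ) ^ (1 - κ) := by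
      have := le_abs_self K
      have := abs_nonneg K
      nlinarith
    calc C * (N : ℝ) ^ (1 - κ) + K ≤ (C + |K|) * (N : ℝ) ^ (1 - κ) := by linarith
      _ ≤ (N : ℝ) ^ κ * ε * (N : ℝ) ^ (1 - κ) := h7
      _ = ε * ((N : ℝ) ^ κ * (N : ℝ) ^ (1 - κ)) := by ring
      _ = ε * N := by rw [← h5]
  have hIcc : ∀ N : ℕ, ∑ n ∈ Ioc 0 N, g (ms α c n) = ∑ n ∈ Icc 1 N, g (ms α c n) := fun N => by
    rw [Pool.Agent.Y854.ST.Ioc_zero]
  constructor
  · -- from the sequence to all integers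
    intro h ε hε
    set ε₁ : ℝ := ε * a / (16 * c * (1 + a)) with hε₁
    have hε10 : 0 < ε₁ := by positivity
    obtain ⟨N1, h1⟩ := h ε₁ hε10
    obtain ⟨N2, h2⟩ := hpow ε₁ hε10 0
    set M := max N1 N2 with hM
    -- the weighted sums
    set K := ∑ t ∈ Ioc 0 (ms α c M), wt c t + (1 + a) / a with hK
    have hK0 : 0 ≤ K := add_nonneg (Finset.sum_nonneg fun t _ => wt_nonneg hc t) (by positivity)
    have h3 : ∀ Y : ℕ, |∑ t ∈ Ioc 0 Y, wt c t * g t| ≤ 2 * ε₁ * ((Y : ℝ) + 1) ^ (1 / c) + K := by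
      intro Y
      rcases le_or_gt (ms α c M) Y with hY | hY
      · obtain ⟨N, hN, hY1, hY2⟩ := between hα hc M Y hY
        have b1 := h1 N (le_trans (le_max_left _ _) hN)
        have b2 := h2 N (le_trans (le_max_right _ _) hN)
        have b3 := hR N
        rw [hIcc] at b1
        have b4 : |a * ∑ t ∈ Ioc 0 (ms α c N), wt c t * g t| ≤ 2 * ε₁ * N := by
          rw [abs_le] at b1 b3 ⊢
          constructor <;> linarith [b1.1, b1.2, b3.1, b3.2]
        have b5 := idx_le hα hc hY1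
        have b6 : |∑ t ∈ Ioc 0 (ms α c N), wt c t * g t| ≤ 2 * ε₁ * ((Y : ℝ) + 1) ^ (1 / c) := by
          rw [abs_mul, abs_of_pos ha0] at b4
          have b7 := mul_le_mul_of_nonneg_left b5 (show 0 ≤ 2 * ε₁ by positivity)
          have b8 : a * |∑ t ∈ Ioc 0 (ms α c N), wt c t * g t| ≤ a * (2 * ε₁ * ((Y : ℝ) + 1) ^ (1 / c)) := by
            rw [← ha] at b7
            linarith
          exact le_of_mul_le_mul_left b8 ha0
        have b9 : |∑ t ∈ Ioc (ms α c N) Y, wt c t * g t| ≤ (1 + a) / a := by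
          refine (W_le hc g hg _ _).trans ?_
          rw [le_div_iff₀ ha0, mul_comm]
          refine le_trans ?_ (block_wt hα hc N)
          apply mul_le_mul_of_nonneg_left _ ha0.le
          exact Finset.sum_le_sum_of_subset_of_nonneg (Finset.Ioc_subset_Ioc_right hY2) fun t _ _ => wt_nonneg hc t
        rw [Ioc_split _ hY1]
        refine (abs_add_le _ _).trans ?_
        have b10 : 0 ≤ ∑ t ∈ Ioc 0 (ms α c M), wt c t := Finset.sum_nonneg fun t _ => wt_nonneg hc t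
        rw [hK]
        linarith
      · have b1 := W_le hc g hg 0 Y
        have b2 : ∑ t ∈ Ioc 0 Y, wt c t ≤ ∑ t ∈ Ioc 0 (ms α c M), wt c t :=
          Finset.sum_le_sum_of_subset_of_nonneg (Finset.Ioc_subset_Ioc_right hY.le) fun t _ _ => wt_nonneg hc t
        have b3 : 0 ≤ 2 * ε₁ * ((Y : ℝ) + 1) ^ (1 / c) := by positivity
        have b4 : 0 ≤ (1 + a) / a := by positivity
        rw [hK]
        linarith
    -- removal of the weights
    have h4 : ∀ Y : ℕ, 1 ≤ Y → |∑ t ∈ Ioc 0 Y, g t| ≤ 8 * c * ε₁ * Y + 2 * c * K * (Y : ℝ) ^ (1 - 1 / c) := by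
      intro Y hY
      have hY0 : (0 : ℝ) < Y := by exact_mod_cast (by omega : 0 < Y)
      have b1 := incr (fun t => 1 / wt c t) (fun t => wt c t * g t) (fun t ht => (div_pos one_pos (wt_pos hc ht)).le)
        (fun t ht => one_div_le_one_div_of_le (wt_pos hc (by omega)) (wt_anti hc ht (Nat.le_succ t))) Y hY
        (2 * ε₁ * ((Y : ℝ) + 1) ^ (1 / c) + K) (by positivity) (fun t _ htY => by
          refine (h3 t).trans ?_
          have : ((t : ℝ) + 1) ^ (1 / c) ≤ ((Y : ℝ) + 1) ^ (1 / c) := by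
            apply Real.rpow_le_rpow (by positivity) _ (by positivity)
            have : (t : ℝ) ≤ Y := by exact_mod_cast htY
            linarith
          have b2 := mul_le_mul_of_nonneg_left this (show 0 ≤ 2 * ε₁ by positivity)
          linarith)
      have e1 : ∑ t ∈ Ioc 0 Y, 1 / wt c t * (wt c t * g t) = ∑ t ∈ Ioc 0 Y, g t := by
        refine Finset.sum_congr rfl fun t ht => ?_
        have := wt_pos hc (mem_Ioc.1 ht).1
        field_simp
      rw [e1] at b1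
      refine b1.trans ?_
      have e2 : 1 / wt c Y = c * (Y : ℝ) ^ (1 - 1 / c) := by
        unfold wt
        have : (Y : ℝ) ^ (1 - 1 / c) = ((Y : ℝ) ^ (1 / c - 1))⁻¹ := by
          rw [← Real.rpow_neg hY0.le]
          congr 1
          ring
        rw [this]
        have h5 : (Y : ℝ) ^ (1 / c - 1) ≠ 0 := (Real.rpow_pos_of_pos hY0 _).ne'
        field_simp
      rw [e2]
      have b3 : ((Y : ℝ) + 1) ^ (1 / c) ≤ 2 * (Y : ℝ) ^ (1 / c) := by
        have hY1 : (1 : ℝ) ≤ Y := by exact_mod_cast hY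
        calc ((Y : ℝ) + 1) ^ (1 / c) ≤ (2 * Y : ℝ) ^ (1 / c) := Real.rpow_le_rpow (by positivity) (by linarith) (by positivity)
          _ = (2 : ℝ) ^ (1 / c) * (Y : ℝ) ^ (1 / c) := Real.mul_rpow (by norm_num) hY0.le
          _ ≤ 2 * (Y : ℝ) ^ (1 / c) := by
              apply mul_le_mul_of_nonneg_right _ (by positivity)
              calc (2 : ℝ) ^ (1 / c) ≤ (2 : ℝ) ^ (1 : ℝ) := Real.rpow_le_rpow_of_exponent_le (by norm_num)
                    (by rw [div_le_one hc0]; exact hc.le)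
                _ = 2 := Real.rpow_one 2
      have b4 : (Y : ℝ) ^ (1 / c) * (Y : ℝ) ^ (1 - 1 / c) = Y := by
        rw [← Real.rpow_add hY0]
        simp
      have b5 : 0 ≤ (Y : ℝ) ^ (1 - 1 / c) := by positivity
      have b6 := mul_le_mul_of_nonneg_right b3 b5
      have b7 : 2 * (Y : ℝ) ^ (1 / c) * (Y : ℝ) ^ (1 - 1 / c) = 2 * Y := by rw [mul_assoc, b4]
      rw [b7] at b6
      have b8 := mul_le_mul_of_nonneg_left b6 (show 0 ≤ 4 * ε₁ * c by positivity)
      linarith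
    have h5 : Tendsto (fun N : ℕ => (N : ℝ) ^ (1 / c)) atTop atTop :=
      (tendsto_rpow_atTop (by positivity)).comp tendsto_natCast_atTop_atTop
    obtain ⟨N3, h6⟩ := ((h5.eventually (eventually_ge_atTop (4 * c * K / ε))).and (eventually_ge_atTop 1)).exists_forall_of_atTop
    refine ⟨N3, fun Y hY => ?_⟩
    obtain ⟨h7, h8⟩ := h6 Y hY
    have hY0 : (0 : ℝ) < Y := by exact_mod_cast (by omega : 0 < Y)
    refine (h4 Y h8).trans ?_
    rw [div_le_iff₀ hε] at h7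
    have b4 : (Y : ℝ) ^ (1 / c) * (Y : ℝ) ^ (1 - 1 / c) = Y := by
      rw [← Real.rpow_add hY0]
      simp
    have b5 : 0 ≤ (Y : ℝ) ^ (1 - 1 / c) := by positivity
    have b6 := mul_le_mul_of_nonneg_right h7 b5
    have b7 : (Y : ℝ) ^ (1 / c) * ε * (Y : ℝ) ^ (1 - 1 / c) = ε * Y := by
      rw [mul_right_comm, b4]; ring
    rw [b7] at b6
    have b8 : 8 * c * ε₁ ≤ ε / 2 := by
      rw [hε₁]
      have e : 8 * c * (ε * a / (16 * c * (1 + a))) = (ε / 2) * (a / (1 + a)) := by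
        field_simp
        ring
      rw [e]
      have : a / (1 + a) ≤ 1 := by
        rw [div_le_one (by positivity)]
        linarith
      have : 0 < ε / 2 := by positivity
      nlinarith
    have b9 := mul_le_mul_of_nonneg_right b8 hY0.le
    linarith
  · -- from all integers to the sequence
    intro h ε hε
    set ε₁ : ℝ := ε / 4 with hε₁
    have hε10 : 0 < ε₁ := by positivity
    obtain ⟨N1, h1⟩ := h ε₁ hε10
    have h2 : ∀ t : ℕ, 1 ≤ t → |∑ s ∈ Ioc 0 t, g s| ≤ ∑ s ∈ Ioc 0 t, (ε₁ + if s = 1 then (N1 : ℝ) else 0) := by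
      intro t ht
      have e1 : ∑ s ∈ Ioc 0 t, (ε₁ + if s = 1 then (N1 : ℝ) else 0) = ε₁ * t + N1 := by
        rw [Finset.sum_add_distrib, Finset.sum_const, Nat.card_Ioc, Nat.sub_zero, nsmul_eq_mul,
          Finset.sum_ite_eq' (Ioc 0 t) 1, if_pos (mem_Ioc.2 ⟨one_pos, ht⟩)]
        ring
      rw [e1]
      rcases le_or_gt N1 t with h3 | h3
      · have := h1 t h3
        have : (0 : ℝ) ≤ N1 := Nat.cast_nonneg _
        linarith
      · have h4 : |∑ s ∈ Ioc 0 t, g s| ≤ t := by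
          refine (Finset.abs_sum_le_sum_abs _ _).trans ?_
          calc ∑ n ∈ Ioc 0 t, |g n| ≤ ∑ _n ∈ Ioc 0 t, (1 : ℝ) := Finset.sum_le_sum fun n _ => hg _
            _ = t := by rw [Finset.sum_const, Nat.card_Ioc, nsmul_eq_mul, mul_one, Nat.sub_zero]
        have h5 : (t : ℝ) ≤ N1 := by exact_mod_cast h3.le
        have h6 : 0 ≤ ε₁ * t := by positivity
        linarith
    obtain ⟨N2, h3⟩ := hpow (ε / 2) (by positivity) (a * (wt c 1 * N1))
    refine ⟨N2, fun N hN => ?_⟩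
    have b1 := h3 N hN
    have b2 := hR N
    have b3 := dom (wt c) g _ (fun t _ => wt_nonneg hc t) (fun t ht => wt_anti hc ht (Nat.le_succ t)) (ms α c N)
      (fun t ht _ => h2 t ht)
    have b4 : ∑ t ∈ Ioc 0 (ms α c N), wt c t * (ε₁ + if t = 1 then (N1 : ℝ) else 0) ≤
        ε₁ * ∑ t ∈ Ioc 0 (ms α c N), wt c t + wt c 1 * N1 := by
      simp only [mul_add, Finset.sum_add_distrib, mul_ite, mul_zero]
      rw [Finset.sum_ite_eq' (Ioc 0 (ms α c N)) 1, Finset.mul_sum]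
      have e2 : ∑ t ∈ Ioc 0 (ms α c N), wt c t * ε₁ = ∑ t ∈ Ioc 0 (ms α c N), ε₁ * wt c t :=
        Finset.sum_congr rfl fun t _ => mul_comm _ _
      rw [e2]
      have : 0 ≤ wt c 1 * (N1 : ℝ) := mul_nonneg (wt_nonneg hc 1) (Nat.cast_nonneg _)
      split_ifs <;> linarith
    have b5 := (wsum hα hc N).2
    rw [← ha] at b5
    have b6 := mul_le_mul_of_nonneg_left (b3.trans b4) ha0.le
    rw [hIcc]
    have b7 : |a * ∑ t ∈ Ioc 0 (ms α c N), wt c t * g t| ≤ ε₁ * N + a * (wt c 1 * N1) := by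
      rw [abs_mul, abs_of_pos ha0]
      refine b6.trans ?_
      have := mul_le_mul_of_nonneg_left b5 hε10.le
      linarith
    have hN0 : (0 : ℝ) ≤ N := Nat.cast_nonneg _
    rw [abs_le] at b2 b7 ⊢
    have hx : ε₁ * N + ε / 2 * N ≤ ε * N := by
      rw [hε₁]
      have : 0 ≤ ε * N := by positivity
      linarith
    constructor <;> linarith [b2.1, b2.2, b7.1, b7.2]

end Pool.Agent.U909.CH
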